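import Pool.Agent.Lib.MP_1ef7cf_nt_h.Defs
import Pool.Agent.Lib.MP_1ef7cf_nt_g.Mg.G029

/-!
# Coordinates modulo `Q`, basic facts on the moduli
-/

open Complex

namespace Pool.Agent.STh

open Pool.Agent.STg

/-! Adapt `STg` file `MP_1ef7cf_nt_g/Q3a.lean` (there the modulus is `2 ^ k`). -/

lemma nu_coe {Q a : ℕ} (ha : a.Coprime Q) : ((nu Q a : (ZMod Q)ˣ) : ZMod Q) = (a : ZMod Q) := by
  unfold nu
  rw [dif_pos ha]
  exact ZMod.coe_unitOfCoprime _ _

lemma nu_mul {Q a b : ℕ} (ha : a.Coprime Q) (hb : b.Coprime Q) :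
    nu Q (a * b) = nu Q a * nu Q b := by
  apply Units.ext
  rw [Units.val_mul, nu_coe ha, nu_coe hb, nu_coe (Nat.Coprime.mul_left ha hb), Nat.cast_mul]

lemma nu_eq_iff {Q a b : ℕ} (ha : a.Coprime Q) (hb : b.Coprime Q) :
    nu Q a = nu Q b ↔ a ≡ b [MOD Q] := by
  constructor
  · intro h
    have h1 : ((nu Q a : (ZMod Q)ˣ) : ZMod Q) = ((nu Q b : (ZMod Q)ˣ) : ZMod Q) := by rw [h]
    rw [nu_coe ha, nu_coe hb] at h1
    exact (ZMod.natCast_eq_natCast_iff a b Q).mp h1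
  · intro h
    apply Units.ext
    rw [nu_coe ha, nu_coe hb]
    exact (ZMod.natCast_eq_natCast_iff a b Q).mpr h

lemma nu_one (Q : ℕ) : nu Q 1 = 1 := by
  apply Units.ext
  rw [nu_coe (Nat.coprime_one_left Q), Nat.cast_one, Units.val_one]

lemma exists_nu {Q : ℕ} (hQ : Q ≠ 0) (u : (ZMod Q)ˣ) : ∃ a : ℕ, a.Coprime Q ∧ nu Q a = u := by
  have : NeZero Q := ⟨hQ⟩
  refine ⟨(u : ZMod Q).val, ZMod.val_coe_unit_coprime u, ?_⟩
  apply Units.ext
  rw [nu_coe (ZMod.val_coe_unit_coprime u)]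
  exact ZMod.natCast_zmod_val _

lemma zc_mul_zc (Q : ℕ) : zc Q * zc Q = 1 := by
  unfold zc
  rw [Prod.mk_mul_mk]
  simp

lemma zc_inv_mul (Q : ℕ) (g : Gam Q) : zc Q * (zc Q * g) = g := by
  rw [← mul_assoc, zc_mul_zc, one_mul]

lemma sg_coe (s : ℤˣ) : ((sg s : GaussianIntˣ) : GaussianInt) = ((s : ℤ) : GaussianInt) := by
  rfl

lemma sg_neg_one : sg (-1) = -1 := by
  apply Units.ext
  rw [sg_coe]
  simp

/-- in `ℂ` -/
lemma sg_coe' (s : ℤˣ) : (((sg s : GaussianIntˣ) : GaussianInt) : ℂ) = ((s : ℤ) : ℂ) := by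
  rw [sg_coe]
  simp

lemma sg_injective : Function.Injective sg := by
  intro s t h
  have h1 := congrArg (fun u : GaussianIntˣ => (u : GaussianInt)) h
  simp only [sg_coe] at h1
  have h2 := congrArg Zsqrtd.re h1
  simp only [Zsqrtd.re_intCast] at h2
  exact Units.ext h2

/-- a unit of `ℤ[i]` equal to its conjugate is `1` or `-1` (the units are `1, i, -1, -i`:
`Q_units`) -/
lemma exists_sg {u : GaussianIntˣ} (h : star ((u : GaussianInt)) = (u : GaussianInt)) :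
    ∃ s : ℤˣ, u = sg s := by
  have him := congrArg Zsqrtd.im h
  rw [Zsqrtd.im_star] at him
  rcases Q_units u.1 u.isUnit with ⟨k1, k2⟩ | ⟨k1, k2⟩ | ⟨k1, k2⟩ | ⟨k1, k2⟩
  · refine ⟨1, ?_⟩
    rw [map_one]
    apply Units.ext
    ext
    · rw [k1]; simp
    · rw [k2]; simp
  · refine ⟨-1, ?_⟩
    rw [sg_neg_one]
    apply Units.ext
    ext
    · rw [k1]; simp
    · rw [k2]; simp
  · exfalso
    rw [k2] at him
    norm_num at him
  · exfalso
    rw [k2] at him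
    norm_num at him

/-- the fourth power of a unit of `ℤ[i]` -/
lemma unit_pow_four (u : GaussianIntˣ) : u ^ 4 = 1 := by
  apply Units.ext
  rw [Units.val_pow_eq_pow_val, Units.val_one]
  rcases Q_units u.1 u.isUnit with ⟨k1, k2⟩ | ⟨k1, k2⟩ | ⟨k1, k2⟩ | ⟨k1, k2⟩
  all_goals
    have hu : (u : GaussianInt) = ⟨(u : GaussianInt).re, (u : GaussianInt).im⟩ := rfl
    rw [hu, k1, k2]
    rw [pow_succ, pow_succ, pow_succ, pow_one]
    ext <;> simp

/-- `u u' = 1` for the conjugate `u'` -/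
lemma unit_mul_star (u : GaussianIntˣ) : (u : GaussianInt) * star (u : GaussianInt) = 1 := by
  rw [mul_star_eq]
  rcases Q_units u.1 u.isUnit with ⟨k1, k2⟩ | ⟨k1, k2⟩ | ⟨k1, k2⟩ | ⟨k1, k2⟩
  all_goals
    have h := Q_gN (u : GaussianInt)
    rw [k1, k2] at h
    have h1 : gN (u : GaussianInt) = 1 := by omega
    rw [h1, Nat.cast_one]

variable (U : UD)

lemma UD.M_ne_zero (k : ℕ) : U.M k ≠ 0 := by
  unfold UD.M
  exact mul_ne_zero (pow_ne_zero _ two_ne_zero) U.n0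

lemma UD.M_zero : U.M 0 = U.n := by
  unfold UD.M
  rw [pow_zero, one_mul]

lemma UD.M_succ (k : ℕ) : U.M (k + 1) = 2 * U.M k := by
  unfold UD.M
  rw [pow_succ]
  ring

lemma UD.n_dvd_M (k : ℕ) : U.n ∣ U.M k := by
  unfold UD.M
  exact Dvd.intro_left _ rfl

lemma UD.M_dvd {k J : ℕ} (h : k ≤ J) : U.M k ∣ U.M J := by
  unfold UD.M
  exact mul_dvd_mul (pow_dvd_pow 2 h) dvd_rfl

/-- `64 ∣ 2 ^ k n` -/
lemma UD.dvd64 (k : ℕ) : 64 ∣ U.M k := by
  exact (dvd_trans (Dvd.intro _ rfl) U.dvd).trans (U.n_dvd_M k)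

/-- `0` is a square -/
lemma UD.d_ne_zero : U.d ≠ 0 := by
  intro h
  apply U.nsq
  rw [h]
  exact ⟨0, rfl⟩

lemma UD.f_ne_zero (J : ℕ) : U.f J ≠ 0 := by
  unfold UD.f
  exact_mod_cast U.M_ne_zero J

/-- `(1 + i) ^ 3 ∣ 4 ∣ f` (`cube_dvd_four`) -/
lemma UD.cube_dvd (J : ℕ) : (⟨1, 1⟩ : GaussianInt) ^ 3 ∣ U.f J := by
  refine cube_dvd_four.trans ?_
  unfold UD.f
  have h : (4 : ℕ) ∣ U.M J := dvd_trans (by norm_num) (U.dvd64 J)
  obtain ⟨c, hc⟩ := h
  rw [hc]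
  push_cast
  exact Dvd.intro _ rfl

lemma UD.f_dvd {k J : ℕ} (h : k ≤ J) : U.f k ∣ U.f J := by
  unfold UD.f
  obtain ⟨c, hc⟩ := U.M_dvd h
  rw [hc]
  push_cast
  exact Dvd.intro _ rfl

lemma UD.f_not_unit (J : ℕ) : ¬ IsUnit (U.f J) := by
  intro h
  have h1 : IsUnit ((⟨1, 1⟩ : GaussianInt) ^ 3) := isUnit_of_dvd_unit (U.cube_dvd J) h
  have h2 : IsUnit (⟨1, 1⟩ : GaussianInt) := isUnit_of_dvd_unit (dvd_pow_self _ (by norm_num)) h1
  rcases Q_units _ h2 with ⟨k1, k2⟩ | ⟨k1, k2⟩ | ⟨k1, k2⟩ | ⟨k1, k2⟩ <;> simp at k1 k2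

/-- `f = 2 ^ J n` and `2 ∣ n` -/
lemma UD.coprime_f {a : GaussianInt} (J : ℕ) (h : IsCoprime a ((U.n : ℕ) : GaussianInt)) :
    IsCoprime a (U.f J) := by
  unfold UD.f UD.M
  push_cast
  have h2 : (2 : GaussianInt) ∣ ((U.n : ℕ) : GaussianInt) := by
    have h : (2 : ℕ) ∣ U.n := by
      have := U.dvd64 0
      rw [U.M_zero] at this
      exact dvd_trans (by norm_num) this
    obtain ⟨c, hc⟩ := h
    rw [hc]
    push_cast
    exact Dvd.intro _ rfl
  exact IsCoprime.mul_right (h.of_isCoprime_of_dvd_right h2).pow_right h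

lemma UD.coprime_n {a : GaussianInt} {J : ℕ} (h : IsCoprime a (U.f J)) :
    IsCoprime a ((U.n : ℕ) : GaussianInt) := by
  unfold UD.f UD.M at h
  push_cast at h
  exact h.of_mul_right_right

lemma UD.coprime_d {a : GaussianInt} (h : IsCoprime a ((U.n : ℕ) : GaussianInt)) :
    IsCoprime a ((U.d : ℕ) : GaussianInt) := by
  have h1 : U.d ∣ U.n := dvd_trans (Dvd.intro_left _ rfl) U.dvd
  obtain ⟨c, hc⟩ := h1
  rw [hc] at h
  push_cast at h
  exact h.of_mul_right_left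

lemma UD.ne_zero_of {a : GaussianInt} (h : IsCoprime a ((U.n : ℕ) : GaussianInt)) : a ≠ 0 := by
  intro h0
  rw [h0] at h
  have h1 : IsUnit ((U.n : ℕ) : GaussianInt) := isCoprime_zero_left.mp h
  have := U.f_not_unit 0
  unfold UD.f at this
  rw [U.M_zero] at this
  exact this h1

private lemma Q1_aux_gN {a : GaussianInt} {Q : ℕ} (h : IsCoprime a ((Q : ℕ) : GaussianInt)) :
    (gN a).Coprime Q := by
  obtain ⟨x, y, hxy⟩ := h
  have h1 : IsCoprime (a * star a) ((Q : ℕ) : GaussianInt) := by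
    refine IsCoprime.mul_left ⟨x, y, hxy⟩ ⟨star x, star y, ?_⟩
    have := congrArg star hxy
    rw [star_add, star_mul', star_mul', star_one] at this
    rw [← this]
    congr 1
  rw [mul_star_eq] at h1
  obtain ⟨u, v, huv⟩ := h1
  have hre := congrArg Zsqrtd.re huv
  have h2 : u.re * ((gN a : ℕ) : ℤ) + v.re * ((Q : ℕ) : ℤ) = 1 := by
    simpa using hre
  exact (Nat.isCoprime_iff_coprime).mp ⟨u.re, v.re, h2⟩

/-- `a` is prime to `2` -/
lemma UD.gOdd_of {a : GaussianInt} (h : IsCoprime a ((U.n : ℕ) : GaussianInt)) : gOdd a := by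
  have h2 := h
  have hd : (2 : ℕ) ∣ U.n := by
    have := U.dvd64 0
    rw [U.M_zero] at this
    exact dvd_trans (by norm_num) this
  have h3 := Q1_aux_gN h
  have h4 : (gN a).Coprime 2 := Nat.Coprime.coprime_dvd_right hd h3
  exact (Nat.coprime_two_right).mp h4

/-- the conjugate is prime to `Q`, so `N(a) = a a'` is -/
lemma gN_coprime {a : GaussianInt} {Q : ℕ} (h : IsCoprime a ((Q : ℕ) : GaussianInt)) :
    (gN a).Coprime Q :=
  Q1_aux_gN h

lemma coprime_of_gN {a : GaussianInt} {Q : ℕ} (h : (gN a).Coprime Q) :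
    IsCoprime a ((Q : ℕ) : GaussianInt) := by
  obtain ⟨u, v, huv⟩ := (Nat.isCoprime_iff_coprime).mpr h
  refine ⟨(u : GaussianInt) * star a, (v : GaussianInt), ?_⟩
  have h1 := congrArg (fun z : ℤ => (z : GaussianInt)) huv
  push_cast at h1
  rw [← h1, ← mul_star_eq a]
  ring

lemma UD.gN_coprime (k : ℕ) {a : GaussianInt} (h : IsCoprime a ((U.n : ℕ) : GaussianInt)) :
    (gN a).Coprime (U.M k) := by
  have h1 := U.coprime_f k h
  unfold UD.f at h1
  exact Pool.Agent.STh.gN_coprime h1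

lemma sM_mul (k : ℕ) {a b : GaussianInt} (ha : IsCoprime a ((U.n : ℕ) : GaussianInt))
    (hb : IsCoprime b ((U.n : ℕ) : GaussianInt)) : sM U k (a * b) = sM U k a * sM U k b := by
  unfold sM
  rw [Prod.mk_mul_mk, gN_mul, nu_mul (U.gN_coprime k ha) (U.gN_coprime k hb),
    U.mul a b (U.ne_zero_of ha) (U.ne_zero_of hb)]

/-- from `mul`: `κ 1 = κ 1 * κ 1` -/
lemma UD.κ_one : U.κ 1 = 1 := by
  have h := U.mul 1 1 one_ne_zero one_ne_zero
  rw [mul_one] at h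
  exact (mul_eq_left.mp h.symm)

lemma sM_one (k : ℕ) : sM U k 1 = 1 := by
  unfold sM
  rw [U.κ_one, gN_one, nu_one]
  rfl

end Pool.Agent.STh
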