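import Pool.Agent.Lib.MP_1ef7cf_nt_g.Defs

/-!
# Definitions for the arithmetic part

All objects depend on the data `UD`: the lemniscatic data `D` (with `X` real), a natural number `d`
which is not a square, the quartic residue symbol `κ(β) = (d / β)₄`, and a multiple `n` of `64 d`.
-/

open Complex

namespace Pool.Agent.STh

open Pool.Agent.STg

/-- The data. `κ` is the quartic residue symbol `(d / β)₄` with values in `{1, i, -1, -i}`. -/
structure UD where
  D : LemData
  conj : ∀ z : ℂ, D.X (starRingEnd ℂ z) = starRingEnd ℂ (D.X z)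
  d : ℕ
  n : ℕ
  κ : GaussianInt → GaussianIntˣ
  nsq : ¬ IsSquare d
  n0 : n ≠ 0
  dvd : 64 * d ∣ n
  mul : ∀ a b : GaussianInt, a ≠ 0 → b ≠ 0 → κ (a * b) = κ a * κ b
  leg : ∀ p : GaussianInt, Prime p → gOdd p → ¬ p ∣ (d : GaussianInt) →
    p ∣ (d : GaussianInt) ^ ((gN p - 1) / 4) - ((κ p : GaussianIntˣ) : GaussianInt)
  st : ∀ a : GaussianInt, ((κ (star a) : GaussianIntˣ) : GaussianInt) =
    star ((κ a : GaussianIntˣ) : GaussianInt)

/-- `√d` -/
noncomputable def UD.e (U : UD) : ℝ := Real.sqrt U.d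

/-- the fourth root of `d` -/
noncomputable def UD.r (U : UD) : ℝ := Real.sqrt U.e

/-- the modulus `2 ^ k n` as a natural number -/
def UD.M (U : UD) (k : ℕ) : ℕ := 2 ^ k * U.n

/-- the modulus `2 ^ J n` as a Gaussian integer -/
def UD.f (U : UD) (J : ℕ) : GaussianInt := ((U.M J : ℕ) : GaussianInt)

/-- `cos (2 π / Q)` -/
noncomputable def cq (Q : ℕ) : ℝ := Real.cos (2 * Real.pi / Q)

/-- `exp (2 π i / Q)` -/
noncomputable def zq (Q : ℕ) : ℂ := Complex.exp (2 * Real.pi * I / Q)

/-- the group of the coordinates: units of `ℤ[i]` and classes modulo `Q` -/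
abbrev Gam (Q : ℕ) : Type := GaussianIntˣ × (ZMod Q)ˣ

/-- the class of a number prime to `Q` -/
def nu (Q a : ℕ) : (ZMod Q)ˣ := if h : a.Coprime Q then ZMod.unitOfCoprime a h else 1

/-- the coordinates of complex conjugation over the second embedding -/
def zc (Q : ℕ) : Gam Q := (-1, 1)

/-- the inclusion of the signs in the units of `ℤ[i]` -/
def sg : ℤˣ →* GaussianIntˣ := Units.map (Int.castRingHom GaussianInt : ℤ →* GaussianInt)

/-- the coordinates of the Artin symbol of a primary element `β` at the level `k` -/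
def sM (U : UD) (k : ℕ) (β : GaussianInt) : Gam (U.M k) := (U.κ β, nu (U.M k) (gN β))

open Classical in
/-- the sum of `ell (a / f)` over the primary residue classes `a` with coordinates `g` -/
noncomputable def SS (U : UD) (k J : ℕ) (g : Gam (U.M k)) : ℝ :=
  ∑ a ∈ PR (U.f J), if sM U k a = g then U.D.ell ((a : ℂ) / (U.f J : ℂ)) else 0

/-- the numbers which will be the Stark units -/
noncomputable def xv (U : UD) (k J : ℕ) (g : Gam (U.M k)) : ℝ :=
  Real.exp (2 * (SS U k J g - SS U k J (zc _ * g)))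

/-- the real field `ℚ(d ^ (1 / 4), cos (2 π / Q))` with `Q = 2 ^ k n` -/
noncomputable def Rk (U : UD) (k : ℕ) : IntermediateField ℚ ℝ :=
  IntermediateField.adjoin ℚ {U.r, cq (U.M k)}

/-- the complex field `ℚ(i, d ^ (1 / 4), exp (2 π i / Q))` with `Q = 2 ^ k n` -/
noncomputable def Nk (U : UD) (k : ℕ) : IntermediateField ℚ ℂ :=
  IntermediateField.adjoin ℚ {I, (U.r : ℂ), zq (U.M k)}

/-- `y` is a Galois function with values in the units of norm one over the second embedding
(without integrality). -/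
structure IsGF (U : UD) (k : ℕ) (y : Gam (U.M k) → ℝ) : Prop where
  pos : ∀ g, 0 < y g
  mem : ∀ g, y g ∈ Rk U k
  gal : ∀ (φ : Rk U k →+* ℂ) (s : ℤˣ) (n : ℕ), n % 4 = 1 → n.Coprime (U.M k) →
    ap φ U.r = ((s : ℤ) : ℂ) * (U.r : ℂ) →
    ap φ (cq (U.M k)) = (Real.cos (2 * Real.pi * n / U.M k) : ℂ) →
    ∀ g, ap φ (y g) = (y ((sg s, nu (U.M k) n) * g) : ℂ)
  abs : ∀ φ : Rk U k →+* ℂ, ap φ U.e = -(U.e : ℂ) → ∀ g, ‖ap φ (y g)‖ = 1

open Classical in
/-- the product of the values `th` over the classes with coordinates `g` -/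
noncomputable def pp (U : UD) (k J : ℕ) (α : GaussianInt) (g : Gam (U.M k)) : ℂ :=
  ∏ a ∈ PR (U.f J), if sM U k a = g then th U.D α (U.f J) a else 1

/-- the elliptic units -/
noncomputable def vv (U : UD) (k J : ℕ) (α : GaussianInt) (g : Gam (U.M k)) : ℂ :=
  pp U k J α g / pp U k J α (zc _ * g)

/-- `h` acts as multiplication by `β` on the `Q`-torsion points -/
structure Acts (U : UD) (Q : ℕ) (β : GaussianInt) (h : Qb →+* ℂ) : Prop where
  I : ap h I = I
  X : ∀ w : ℂ, w ∉ Lam → (Q : ℂ) * w ∈ Lam → ap h (U.D.X w) = U.D.X (β * w)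
  z : ap h (zq Q) = zq Q ^ gN β
  r : ap h (U.r : ℂ) = (((U.κ β : GaussianIntˣ) : GaussianInt) : ℂ) * (U.r : ℂ)

end Pool.Agent.STh
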