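import Pool.Agent.Lib.MP_1ef7cf_nt.Act
import Pool.Agent.Lib.MP_1ef7cf_nt_g.Mg.G026

/-!
# The numbers `cos (2 π n / Q)`
-/

open NumberField IsDedekindDomain nonZeroDivisors IntermediateField

namespace Pool.Agent.STh.F

open Pool.Agent.ST

variable {K : Type*} [Field K] [NumberField K] [Algebra K ℝ]

private lemma F05_step (θ : ℝ) (n : ℕ) :
    Real.cos (((n + 2 : ℕ) : ℝ) * θ) =
      2 * Real.cos θ * Real.cos (((n + 1 : ℕ) : ℝ) * θ) + -Real.cos ((n : ℝ) * θ) := by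
  have h1 : ((n + 2 : ℕ) : ℝ) * θ = ((n + 1 : ℕ) : ℝ) * θ + θ := by push_cast; ring
  have h2 : (n : ℝ) * θ = ((n + 1 : ℕ) : ℝ) * θ - θ := by push_cast; ring
  rw [h1, h2, Real.cos_add, Real.cos_sub]
  ring

private lemma F05_mem (H : IntermediateField K ℝ) (θ : ℝ) (h : Real.cos θ ∈ H) (n : ℕ) :
    Real.cos ((n : ℝ) * θ) ∈ H := by
  induction n using Nat.twoStepInduction with
  | zero => simpa using H.one_mem
  | one => simpa using h
  | more n ih1 ih2 =>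
    rw [F05_step]
    exact H.add_mem (H.mul_mem (H.mul_mem (by exact_mod_cast H.natCast_mem 2) h) ih2)
      (H.neg_mem ih1)

/-! Adapt `MP_1ef7cf_nt_g/F16.lean`, `F19.lean` (there `Q = 2 ^ k`). -/

theorem cos_mul_mem (H : IntermediateField K ℝ) {Q : ℕ} (hk : Real.cos (2 * Real.pi / Q) ∈ H)
    (n : ℕ) : Real.cos (2 * Real.pi * n / Q) ∈ H := by
  have h := F05_mem H _ hk n
  rwa [show (n : ℝ) * (2 * Real.pi / Q) = 2 * Real.pi * n / Q by ring] at h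

theorem cos_mem_of_dvd (H : IntermediateField K ℝ) {Q Q' : ℕ} (h : Q ∣ Q') (hQ : Q' ≠ 0)
    (hk : Real.cos (2 * Real.pi / Q') ∈ H) : Real.cos (2 * Real.pi / Q) ∈ H := by
  obtain ⟨c, rfl⟩ := h
  have hQ0 : (Q : ℝ) ≠ 0 := by
    intro h0
    apply hQ
    have : Q = 0 := by exact_mod_cast h0
    rw [this, zero_mul]
  have hc0 : (c : ℝ) ≠ 0 := by
    intro h0
    apply hQ
    have : c = 0 := by exact_mod_cast h0
    rw [this, mul_zero]
  have h := cos_mul_mem H hk c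
  have h2 : 2 * Real.pi * (c : ℝ) / ((Q * c : ℕ) : ℝ) = 2 * Real.pi / Q := by
    push_cast
    field_simp
  rwa [h2] at h

theorem exists_y (H : IntermediateField K ℝ) {Q : ℕ} (hQ : Q ≠ 0)
    (hk : Real.cos (2 * Real.pi / Q) ∈ H) (n : ℕ) :
    ∃ y : 𝓞 H, ((y : H) : ℝ) = 2 * Real.cos (2 * Real.pi * n / Q) := by
  have hm : 2 * Real.cos (2 * Real.pi * n / Q) ∈ H :=
    H.mul_mem (by exact_mod_cast H.natCast_mem 2) (cos_mul_mem H hk n)
  have hi : IsIntegral ℤ (2 * Real.cos (2 * Real.pi * n / Q)) := by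
    have h := Real.isIntegral_two_mul_cos_rat_mul_pi (2 * n / Q : ℚ)
    have h2 : (((2 * n / Q : ℚ) : ℝ) * Real.pi) = 2 * Real.pi * n / Q := by
      push_cast
      ring
    rwa [h2] at h
  have hi2 : IsIntegral ℤ (⟨_, hm⟩ : H) := by
    rw [← isIntegral_algebraMap_iff (B := ℝ) (algebraMap H ℝ).injective]
    exact hi
  exact ⟨⟨⟨_, hm⟩, hi2⟩, rfl⟩

private lemma F05_act {H : IntermediateField K ℝ} (σ : H ≃ₐ[K] H) (θ θ' : ℝ)
    (hm : ∀ n : ℕ, Real.cos ((n : ℝ) * θ) ∈ H)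
    (h : act σ (Real.cos θ) = Real.cos θ') (t : ℕ) :
    act σ (Real.cos ((t : ℝ) * θ)) = Real.cos ((t : ℝ) * θ') := by
  have h2m : (2 : ℝ) ∈ H := by exact_mod_cast H.natCast_mem 2
  have h1m : Real.cos θ ∈ H := by simpa using hm 1
  have h2 : act σ (2 : ℝ) = 2 := by
    have h3 := act_algebraMap σ (2 : K)
    rwa [map_ofNat] at h3
  induction t using Nat.twoStepInduction with
  | zero => simp [act_one_right]
  | one => simpa using h
  | more n ih1 ih2 =>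
    rw [F05_step, F05_step, act_add σ (H.mul_mem (H.mul_mem h2m h1m) (hm _)) (H.neg_mem (hm n)),
      act_mul σ (H.mul_mem h2m h1m) (hm _), act_mul σ h2m h1m, act_neg σ (hm n), h2, h, ih1, ih2]

theorem act_cos_mul {H : IntermediateField K ℝ} {Q : ℕ}
    (hk : Real.cos (2 * Real.pi / Q) ∈ H) (σ : H ≃ₐ[K] H) {n : ℕ}
    (h : act σ (Real.cos (2 * Real.pi / Q)) = Real.cos (2 * Real.pi * n / Q)) (t : ℕ) :
    act σ (Real.cos (2 * Real.pi * t / Q)) = Real.cos (2 * Real.pi * ((n * t : ℕ) : ℝ) / Q) := by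
  have hm : ∀ n : ℕ, Real.cos ((n : ℝ) * (2 * Real.pi / Q)) ∈ H := by
    intro n
    have h3 := cos_mul_mem H hk n
    rwa [show 2 * Real.pi * n / Q = (n : ℝ) * (2 * Real.pi / Q) by ring] at h3
  have h2 := F05_act σ _ _ hm h t
  rw [show 2 * Real.pi * t / Q = (t : ℝ) * (2 * Real.pi / Q) by ring, h2]
  congr 1
  push_cast
  ring

theorem cos_mod_iff {Q : ℕ} (hQ : Q ≠ 0) (a b : ℤ) :
    Real.cos (2 * Real.pi * a / Q) = Real.cos (2 * Real.pi * b / Q) ↔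
      ((Q : ℤ) ∣ a - b ∨ (Q : ℤ) ∣ a + b) := by
  have h2 : (Q : ℝ) ≠ 0 := by exact_mod_cast hQ
  have hpi := Real.pi_ne_zero
  rw [Real.cos_eq_cos_iff]
  constructor
  · rintro ⟨m, h | h⟩
    · left
      refine ⟨-m, ?_⟩
      have h3 : (b : ℝ) = m * Q + a := by
        field_simp at h
        linarith
      have h4 : b = m * Q + a := by exact_mod_cast h3
      rw [h4]; ring
    · right
      refine ⟨m, ?_⟩
      have h3 : (b : ℝ) = m * Q - a := by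
        field_simp at h
        linarith
      have h4 : b = m * Q - a := by exact_mod_cast h3
      rw [h4]; ring
  · rintro (⟨m, h⟩ | ⟨m, h⟩)
    · refine ⟨-m, Or.inl ?_⟩
      have h3 : (a : ℝ) - b = Q * m := by exact_mod_cast h
      have h4 : (b : ℝ) = a - Q * m := by linarith
      rw [h4]
      push_cast
      field_simp
      ring
    · refine ⟨m, Or.inr ?_⟩
      have h3 : (a : ℝ) + b = Q * m := by exact_mod_cast h
      have h4 : (b : ℝ) = Q * m - a := by linarith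
      rw [h4]
      field_simp

private lemma F05_map {R S : Type*} [CommRing R] [CommRing S] (f : R →+* S) (n : ℕ) (x : R) :
    f ((Polynomial.dickson 1 (1 : R) n).eval x) = (Polynomial.dickson 1 (1 : S) n).eval (f x) := by
  rw [← Polynomial.eval₂_at_apply, ← Polynomial.eval_map, Polynomial.map_dickson, map_one]

/-- a real number with `D_Q (x) = 2` is `2 cos (2 π n / Q)` -/
private lemma F05_root {Q : ℕ} (hQ : Q ≠ 0) (x : ℝ)
    (hx : (Polynomial.dickson 1 (1 : ℝ) Q).eval x = 2) :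
    ∃ n : ℕ, x = 2 * Real.cos (2 * Real.pi * n / Q) := by
  -- a complex number `w` with `w + 1 / w = x`
  obtain ⟨w, hw⟩ : ∃ w : ℂ, w ^ 2 - x * w + 1 = 0 := by
    obtain ⟨s, hs⟩ := IsAlgClosed.exists_pow_nat_eq ((x : ℂ) ^ 2 - 4) (n := 2) (by norm_num)
    refine ⟨((x : ℂ) + s) / 2, ?_⟩
    linear_combination hs / 4
  have hw0 : w ≠ 0 := by
    rintro rfl
    simp at hw
  have hxw : (x : ℂ) = w + w⁻¹ := by
    field_simp
    linear_combination -hw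
  have h1 : (Polynomial.dickson 1 (1 : ℂ) Q).eval (x : ℂ) = 2 := by
    have h := F05_map Complex.ofRealHom Q x
    rw [hx] at h
    simpa using h.symm
  rw [hxw, Polynomial.dickson_one_one_eval_add_inv w w⁻¹ (mul_inv_cancel₀ hw0)] at h1
  have h2 : w ^ Q = 1 := by
    have h3 : w ^ Q * (w⁻¹) ^ Q = 1 := by rw [← mul_pow, mul_inv_cancel₀ hw0, one_pow]
    have h4 : (w ^ Q - 1) ^ 2 = 0 := by
      linear_combination w ^ Q * h1 - h3
    have h5 := pow_eq_zero_iff (two_ne_zero) |>.mp h4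
    exact sub_eq_zero.mp h5
  have hprim := Complex.isPrimitiveRoot_exp Q hQ
  have : NeZero Q := ⟨hQ⟩
  obtain ⟨n, _, hn⟩ := hprim.eq_pow_of_pow_eq_one h2
  refine ⟨n, ?_⟩
  have h6 : w = Complex.exp ((2 * Real.pi * n / Q : ℝ) * Complex.I) := by
    rw [← hn, ← Complex.exp_nat_mul]
    congr 1
    push_cast
    ring
  have h7 : (x : ℂ) = ((2 * Real.cos (2 * Real.pi * n / Q) : ℝ) : ℂ) := by
    rw [hxw, h6, ← Complex.exp_neg]
    push_cast
    rw [Complex.two_cos]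
    ring_nf
  exact_mod_cast h7

/-- **The conjugates of `2 cos (2 π / Q)`.** Let `x = act σ (2 cos (2 π / Q))`. The Dickson (Chebyshev) polynomial
`D_Q` has integer coefficients and `D_Q (2 cos θ) = 2 cos (Q θ)`, so `D_Q(x) = 2`. Write `x = w + 1 / w` with a complex number `w`: then
`w ^ Q + w ^ (-Q) = 2`, so `w ^ Q = 1`, `w = exp (2 π i n / Q)` and `x = 2 cos (2 π n / Q)`. If `g = gcd(n, Q)`, `Q = g Q'`: then
`act σ (2 cos (2 π / Q'')) = ...`: `n` is prime to `Q`, because `D_{Q'} (x) = 2` where `Q' = Q / g` and `σ` is injective, so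
`2 = D_{Q'} (2 cos (2 π / Q)) = 2 cos (2 π Q' / Q)`, hence `g = 1`. -/
theorem exists_act_cos {H : IntermediateField K ℝ} {Q : ℕ} (hQ : Q ≠ 0)
    (hk : Real.cos (2 * Real.pi / Q) ∈ H) (σ : H ≃ₐ[K] H) :
    ∃ n : ℕ, n.Coprime Q ∧ act σ (Real.cos (2 * Real.pi / Q)) = Real.cos (2 * Real.pi * n / Q) := by
  have hQR : (Q : ℝ) ≠ 0 := by exact_mod_cast hQ
  have h2m : (2 : ℝ) ∈ H := by exact_mod_cast H.natCast_mem 2
  have hm : 2 * Real.cos (2 * Real.pi / Q) ∈ H := H.mul_mem h2m hk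
  have hy : (Polynomial.dickson 1 (1 : H) Q).eval (⟨_, hm⟩ : H) = 2 := by
    apply (algebraMap H ℝ).injective
    rw [F05_map]
    have h1 : algebraMap H ℝ (⟨_, hm⟩ : H) = 2 * Real.cos (2 * Real.pi / Q) := rfl
    rw [h1, Pool.Agent.STg.F.dickson_cos]
    have h3 : (Q : ℝ) * (2 * Real.pi / Q) = 2 * Real.pi := by field_simp
    rw [h3, Real.cos_two_pi, mul_one]
    exact (map_ofNat (algebraMap H ℝ) 2).symm
  have hσ : (Polynomial.dickson 1 (1 : ℝ) Q).eval ((σ ⟨_, hm⟩ : H) : ℝ) = 2 := by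
    have h1 := congrArg σ hy
    have h2 := F05_map (σ : H →+* H) Q (⟨_, hm⟩ : H)
    have h3 : (Polynomial.dickson 1 (1 : H) Q).eval (σ ⟨_, hm⟩) = 2 := by
      rw [show (σ ⟨_, hm⟩ : H) = (σ : H →+* H) ⟨_, hm⟩ from rfl, ← h2]
      rw [show ((σ : H →+* H) ((Polynomial.dickson 1 (1 : H) Q).eval (⟨_, hm⟩ : H))) =
        σ ((Polynomial.dickson 1 (1 : H) Q).eval (⟨_, hm⟩ : H)) from rfl, h1]
      exact map_ofNat σ 2
    have h4 := congrArg (algebraMap H ℝ) h3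
    rw [F05_map, map_ofNat] at h4
    exact h4
  obtain ⟨n, hn⟩ := F05_root hQ _ hσ
  have hact : act σ (Real.cos (2 * Real.pi / Q)) = Real.cos (2 * Real.pi * n / Q) := by
    have h1 : act σ (2 * Real.cos (2 * Real.pi / Q)) = 2 * Real.cos (2 * Real.pi * n / Q) := by
      rw [act_of_mem σ hm]
      exact hn
    have h2 : act σ (2 : ℝ) = 2 := by
      have h3 := act_algebraMap σ (2 : K)
      rwa [map_ofNat] at h3
    rw [act_mul σ h2m hk, h2] at h1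
    linarith
  refine ⟨n, ?_, hact⟩
  obtain ⟨Q', hQ'⟩ := Nat.gcd_dvd_right n Q
  obtain ⟨n', hn'⟩ := Nat.gcd_dvd_left n Q
  set g := Nat.gcd n Q with hg
  have hg0 : g ≠ 0 := by
    rintro h0
    rw [h0, zero_mul] at hQ'
    exact hQ hQ'
  have hgR : (g : ℝ) ≠ 0 := by exact_mod_cast hg0
  have hQ'0 : (Q' : ℝ) ≠ 0 := by
    intro h0
    apply hQR
    rw [hQ']
    push_cast
    rw [h0, mul_zero]
  have h1 := act_cos_mul hk σ hact Q'
  have h2 : 2 * Real.pi * ((n * Q' : ℕ) : ℝ) / Q = (n' : ℝ) * (2 * Real.pi) := by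
    rw [hn', hQ']
    push_cast
    field_simp
  rw [h2, Real.cos_nat_mul_two_pi] at h1
  have h3 : Real.cos (2 * Real.pi * Q' / Q) = 1 := by
    apply act_inj σ (cos_mul_mem H hk Q') H.one_mem
    rw [h1, act_one_right]
  have h4 : 2 * Real.pi * Q' / Q = 2 * Real.pi / g := by
    rw [hQ']
    push_cast
    field_simp
  rw [h4, Real.cos_eq_one_iff] at h3
  obtain ⟨m, hmm⟩ := h3
  have h5 : (m : ℝ) * g = 1 := by
    have hpi := Real.pi_ne_zero
    field_simp at hmm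
    linarith
  have h6 : m * (g : ℤ) = 1 := by exact_mod_cast h5
  have h7 : (g : ℤ) ∣ 1 := Dvd.intro_left _ h6
  have h8 : g ∣ 1 := by exact_mod_cast h7
  exact Nat.dvd_one.mp h8

/-- `Q = (1 - ω) E` for a root of unity `ω ≠ 1` -/
private lemma F05_one_sub {Q : ℕ} {ω : ℂ} (hω : ω ^ Q = 1) (hne : ω ≠ 1)
    (hi : IsIntegral ℤ ω) : ∃ E : ℂ, IsIntegral ℤ E ∧ (Q : ℂ) = (1 - ω) * E := by
  refine ⟨∑ i ∈ Finset.range Q, ∑ j ∈ Finset.range i, ω ^ j, ?_, ?_⟩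
  · exact IsIntegral.sum _ fun i _ => IsIntegral.sum _ fun j _ => hi.pow j
  · have h1 : ∑ i ∈ Finset.range Q, ω ^ i = 0 := by
      have h2 := mul_neg_geom_sum ω Q
      rw [hω, sub_self] at h2
      rcases mul_eq_zero.mp h2 with h3 | h3
      · exact absurd (sub_eq_zero.mp h3).symm hne
      · exact h3
    rw [Finset.mul_sum]
    have h3 : ∀ i ∈ Finset.range Q, (1 - ω) * ∑ j ∈ Finset.range i, ω ^ j = 1 - ω ^ i :=
      fun i _ => mul_neg_geom_sum ω i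
    rw [Finset.sum_congr rfl h3, Finset.sum_sub_distrib, h1]
    simp

/-- **Differences.** With `ζ = exp (2 π i / Q)`: `ζ ^ n + ζ ^ (-n) - ζ ^ m - ζ ^ (-m) = ζ ^ (-n) (ζ ^ n - ζ ^ m) (ζ ^ n - ζ ^ (-m))`, a
unit times `(1 - ζ ^ j) (1 - ζ ^ j')` with `ζ ^ j, ζ ^ j' ≠ 1`, and `1 - ζ ^ j` divides `Q` in the ring of the algebraic integers
(`∏ (1 - ζ ^ i) = Q`). So `Q ^ 2 / (y - z)` is an algebraic integer, and it is in the field `H`. -/
theorem sub_dvd (H : IntermediateField K ℝ) {Q : ℕ} (hQ : Q ≠ 0) {m n : ℕ} {y z : 𝓞 H}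
    (hy : ((y : H) : ℝ) = 2 * Real.cos (2 * Real.pi * n / Q))
    (hz : ((z : H) : ℝ) = 2 * Real.cos (2 * Real.pi * m / Q)) (hne : y ≠ z) :
    y - z ∣ ((Q : ℕ) : 𝓞 H) ^ 2 := by
  have hQC : (Q : ℂ) ≠ 0 := by exact_mod_cast hQ
  set ζ : ℂ := Complex.exp (2 * Real.pi * Complex.I / Q) with hζ
  have hζ0 : ζ ≠ 0 := Complex.exp_ne_zero _
  have hζQ : ζ ^ Q = 1 := (Complex.isPrimitiveRoot_exp Q hQ).pow_eq_one
  have hζi : IsIntegral ℤ ζ := by
    apply IsIntegral.of_pow (Nat.pos_of_ne_zero hQ)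
    rw [hζQ]
    exact isIntegral_one
  have hζiQ : (ζ⁻¹) ^ Q = 1 := by rw [inv_pow, hζQ, inv_one]
  have hζii : IsIntegral ℤ ζ⁻¹ := by
    apply IsIntegral.of_pow (Nat.pos_of_ne_zero hQ)
    rw [hζiQ]
    exact isIntegral_one
  have hcos : ∀ k : ℕ, ((2 * Real.cos (2 * Real.pi * k / Q) : ℝ) : ℂ) = ζ ^ k + (ζ⁻¹) ^ k := by
    intro k
    push_cast
    rw [Complex.two_cos, hζ, ← Complex.exp_neg, ← Complex.exp_nat_mul, ← Complex.exp_nat_mul]
    congr 2 <;> ring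
  have hyC : (((y : H) : ℝ) : ℂ) = ζ ^ n + (ζ⁻¹) ^ n := by rw [hy, hcos]
  have hzC : (((z : H) : ℝ) : ℂ) = ζ ^ m + (ζ⁻¹) ^ m := by rw [hz, hcos]
  have hneR : ((y : H) : ℝ) - ((z : H) : ℝ) ≠ 0 := by
    intro h
    apply hne
    exact RingOfIntegers.ext (Subtype.ext (sub_eq_zero.mp h))
  have hneC : (((y : H) : ℝ) : ℂ) - (((z : H) : ℝ) : ℂ) ≠ 0 := by
    rw [← Complex.ofReal_sub]
    exact_mod_cast hneR
  -- the two roots of unity
  set ω₁ : ℂ := ζ ^ m * (ζ⁻¹) ^ n with hω₁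
  set ω₂ : ℂ := (ζ⁻¹) ^ m * (ζ⁻¹) ^ n with hω₂
  have hmul : ζ ^ n * (ζ⁻¹) ^ n = 1 := by rw [← mul_pow, mul_inv_cancel₀ hζ0, one_pow]
  have hmulm : ζ ^ m * (ζ⁻¹) ^ m = 1 := by rw [← mul_pow, mul_inv_cancel₀ hζ0, one_pow]
  have hfac : (((y : H) : ℝ) : ℂ) - (((z : H) : ℝ) : ℂ) = ζ ^ n * ((1 - ω₁) * (1 - ω₂)) := by
    rw [hyC, hzC, hω₁, hω₂]
    linear_combination (-(ζ⁻¹) ^ n + ζ ^ m + (ζ⁻¹) ^ m) * hmul - (ζ⁻¹) ^ n * hmulm +
      (1 - ζ ^ m * (ζ⁻¹) ^ m) * (ζ⁻¹) ^ n * hmul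
  have hω₁Q : ω₁ ^ Q = 1 := by
    rw [hω₁, mul_pow, ← pow_mul, ← pow_mul, mul_comm m, mul_comm n, pow_mul, pow_mul, hζQ, hζiQ,
      one_pow, one_pow, one_mul]
  have hω₂Q : ω₂ ^ Q = 1 := by
    rw [hω₂, mul_pow, ← pow_mul, ← pow_mul, mul_comm m, mul_comm n, pow_mul, pow_mul, hζiQ,
      one_pow, one_pow, one_mul]
  have hω₁ne : ω₁ ≠ 1 := by
    intro h
    apply hneC
    rw [hfac, h]
    ring
  have hω₂ne : ω₂ ≠ 1 := by
    intro h
    apply hneC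
    rw [hfac, h]
    ring
  obtain ⟨E₁, hE₁, hQ₁⟩ := F05_one_sub hω₁Q hω₁ne ((hζi.pow m).mul (hζii.pow n))
  obtain ⟨E₂, hE₂, hQ₂⟩ := F05_one_sub hω₂Q hω₂ne ((hζii.pow m).mul (hζii.pow n))
  have hu : (Q : ℂ) ^ 2 =
      ((((y : H) : ℝ) : ℂ) - (((z : H) : ℝ) : ℂ)) * ((ζ⁻¹) ^ n * (E₁ * E₂)) := by
    rw [hfac]
    calc (Q : ℂ) ^ 2 = (Q : ℂ) * (Q : ℂ) := by ring
      _ = ((1 - ω₁) * E₁) * ((1 - ω₂) * E₂) := by rw [← hQ₁, ← hQ₂]
      _ = _ := by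
        linear_combination (-((1 - ω₁) * E₁) * ((1 - ω₂) * E₂)) * hmul
  have hint : IsIntegral ℤ ((ζ⁻¹) ^ n * (E₁ * E₂)) := (hζii.pow n).mul (hE₁.mul hE₂)
  set r : H := ((Q : ℕ) : H) ^ 2 / ((y : H) - (z : H)) with hr
  have hrR : (r : ℝ) = (Q : ℝ) ^ 2 / (((y : H) : ℝ) - ((z : H) : ℝ)) := by
    rw [hr]
    push_cast
    rfl
  have hrC : ((r : ℝ) : ℂ) = (ζ⁻¹) ^ n * (E₁ * E₂) := by
    rw [hrR]
    push_cast
    rw [div_eq_iff hneC]
    rw [hu]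
    ring
  have hrint : IsIntegral ℤ r := by
    rw [← isIntegral_algebraMap_iff (B := ℝ) (algebraMap H ℝ).injective]
    rw [← isIntegral_algebraMap_iff (B := ℂ) (algebraMap ℝ ℂ).injective]
    have : algebraMap ℝ ℂ (algebraMap H ℝ r) = ((r : ℝ) : ℂ) := rfl
    rw [this, hrC]
    exact hint
  obtain ⟨q, hq⟩ : ∃ q : 𝓞 H, (q : H) = r := ⟨⟨r, hrint⟩, rfl⟩
  refine ⟨q, ?_⟩
  apply RingOfIntegers.ext
  have hneH : (y : H) - (z : H) ≠ 0 := by
    intro h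
    apply hneR
    have := congrArg (fun t : H => (t : ℝ)) h
    simpa using this
  have h1 : (((y - z) * q : 𝓞 H) : H) = ((y : H) - (z : H)) * r := by
    rw [← hq]
    push_cast
    rfl
  rw [h1, hr, mul_div_cancel₀ _ hneH]
  push_cast
  rfl

end Pool.Agent.STh.F
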