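import Pool.Agent.Lib.MP_1ef7cf_nt_h.Mg.G002
import Pool.Agent.Lib.MP_1ef7cf_nt_g.Mg.G025
import Pool.Agent.Lib.MP_1ef7cf_nt_h.F05

/-!
# The field `K(√a, cos (2 π / Q))` is finite and abelian over `K`
-/

open NumberField IsDedekindDomain nonZeroDivisors IntermediateField

namespace Pool.Agent.STh.F

open Pool.Agent.ST

variable {K : Type*} [Field K] [NumberField K] [Algebra K ℝ]

/-! Compare `MP_1ef7cf_nt_g/F22.lean`. Here `Q` is arbitrary (`Q = 0`: `cos 0 = 1`), and `a` is arbitrary: if `a < 0` then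
`se a = 0`; otherwise `se a ^ 2 = a ∈ K`. -/

lemma F08_se_eq (a : 𝓞 K) : K⟮se a⟯ = sqrtExt ⊥ (algebraMap K ℝ (a : K)) := by
  unfold sqrtExt se
  rw [bot_sup_eq]

/-- `K(√a)` is finite and abelian over `K`: the two roots of `X ^ 2 - a` are `√a`, `-√a` (or `se a ∈ K`). -/
lemma ab_se (a : 𝓞 K) : FiniteDimensional K K⟮se a⟯ ∧ IsAbelianGalois K K⟮se a⟯ := by
  rcases lt_or_ge (algebraMap K ℝ (a : K)) 0 with h0 | h0
  · have h1 : K⟮se a⟯ = ⊥ := by
      rw [adjoin_simple_eq_bot_iff]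
      unfold se
      rw [Real.sqrt_eq_zero_of_nonpos h0.le]
      exact zero_mem _
    rw [h1]
    refine ⟨inferInstance, ?_⟩
    apply isAbelianGalois_of_comm
    intro γ δ
    apply act_ext
    intro x hx
    obtain ⟨y, rfl⟩ := IntermediateField.mem_bot.1 hx
    rw [act_algebraMap, act_algebraMap]
  · have hu : algebraMap K ℝ (a : K) ∈ (⊥ : IntermediateField K ℝ) :=
      IntermediateField.algebraMap_mem _ _
    have h1 : FiniteDimensional K K⟮se a⟯ := by
      rw [F08_se_eq]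
      exact finiteDimensional_sqrtExt hu h0
    have h2 : Normal K K⟮se a⟯ := by
      rw [F08_se_eq]
      refine normal_sqrtExt hu ?_ ?_
      · intro σ
        rw [act_algebraMap]
        exact h0
      · intro σ
        rw [act_algebraMap]
        exact sqrt_mem_sqrtExt _ _
    refine ⟨h1, isAbelianGalois_of_comm ?_⟩
    intro γ δ
    have hm := mem_adjoin_simple_self K (se a)
    have h3 : ∀ γ : K⟮se a⟯ ≃ₐ[K] K⟮se a⟯, act γ (se a) = se a ∨ act γ (se a) = -se a := by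
      intro γ
      apply sq_eq_sq_iff_eq_or_eq_neg.1
      rw [← act_pow γ hm]
      have h4 : se a ^ 2 = algebraMap K ℝ (a : K) := Real.sq_sqrt h0
      rw [h4, act_algebraMap]
    apply STg.F.F22_eq (x := se a) rfl
    rw [act_comp _ _ hm, act_comp _ _ hm]
    rcases h3 γ with h | h <;> rcases h3 δ with h' | h' <;>
      simp only [h, h', act_neg _ hm]

/-- `K(cos (2 π / Q))` is finite and abelian over `K`. For `Q ≠ 0`, `c = 2 cos (2 π / Q)` is an algebraic integer; all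
conjugates of `c` over `K` in an algebraic closure, e.g. all the roots in `ℂ` of its minimal polynomial over `K`, are of the
form `2 cos (2 π n / Q)` (they are roots of `D_Q - 2`, see `exists_act_cos`), so they are in `K(cos (2 π / Q))` (`cos_mul_mem`): normal.
Abelian: `act_cos_mul`. -/
lemma ab_cos (Q : ℕ) : FiniteDimensional K K⟮Real.cos (2 * Real.pi / Q)⟯ ∧
    IsAbelianGalois K K⟮Real.cos (2 * Real.pi / Q)⟯ := by
  rcases Nat.eq_zero_or_pos Q with hQ | hQ
  · subst hQ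
    have h1 : K⟮Real.cos (2 * Real.pi / (0 : ℕ))⟯ = ⊥ := by
      rw [adjoin_simple_eq_bot_iff]
      simp
    rw [h1]
    refine ⟨inferInstance, ?_⟩
    apply isAbelianGalois_of_comm
    intro γ δ
    apply act_ext
    intro x hx
    obtain ⟨y, rfl⟩ := IntermediateField.mem_bot.1 hx
    rw [act_algebraMap, act_algebraMap]
  · haveI : NeZero Q := ⟨hQ.ne'⟩
    set ζ : ℂ := Complex.exp (2 * Real.pi * Complex.I / Q) with hζd
    have hζ : IsPrimitiveRoot ζ Q := Complex.isPrimitiveRoot_exp Q hQ.ne'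
    have hint : IsIntegral K ζ := hζ.isIntegral hQ |>.tower_top
    have hcyc : IsCyclotomicExtension {Q} K (IntermediateField.adjoin K ({ζ} : Set ℂ)) := by
      change IsCyclotomicExtension {Q} K (IntermediateField.adjoin K {ζ}).toSubalgebra
      rw [IntermediateField.adjoin_simple_toSubalgebra_of_isAlgebraic hint.isAlgebraic]
      exact hζ.adjoin_isCyclotomicExtension K
    have hfd : FiniteDimensional K (IntermediateField.adjoin K ({ζ} : Set ℂ)) :=
      IsCyclotomicExtension.finiteDimensional {Q} K _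
    have hab : IsAbelianGalois K (IntermediateField.adjoin K ({ζ} : Set ℂ)) :=
      IsCyclotomicExtension.isAbelianGalois {Q} K _
    set E : IntermediateField K ℂ := IntermediateField.adjoin K ({ζ} : Set ℂ) with hE
    have hζE : ζ ∈ E := mem_adjoin_simple_self K ζ
    have hcE : ((Real.cos (2 * Real.pi / Q) : ℝ) : ℂ) ∈ E := by
      have h1 : ((Real.cos (2 * Real.pi / Q) : ℝ) : ℂ) = (ζ + ζ⁻¹) / 2 := by
        rw [Complex.ofReal_cos, Complex.cos, hζd, ← Complex.exp_neg]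
        congr 2
        · congr 1
          push_cast; ring
        · congr 1
          push_cast; ring
      rw [h1]
      exact div_mem (add_mem hζE (inv_mem hζE)) (ofNat_mem _ 2)
    let φ : ℝ →ₐ[K] ℂ := IsScalarTower.toAlgHom K ℝ ℂ
    have hφ : ∀ x : ℝ, φ x = (x : ℂ) := fun x => rfl
    have hle : K⟮Real.cos (2 * Real.pi / Q)⟯ ≤ E.comap φ := by
      rw [adjoin_simple_le_iff]
      exact hcE
    let f : K⟮Real.cos (2 * Real.pi / Q)⟯ →ₐ[K] E :=
      (φ.comp K⟮Real.cos (2 * Real.pi / Q)⟯.val).codRestrict E.toSubalgebra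
        (fun x => hle x.2)
    refine ⟨?_, IsAbelianGalois.of_algHom f⟩
    exact FiniteDimensional.of_injective f.toLinearMap f.toRingHom.injective

instance fd_Lf (a : 𝓞 K) (Q : ℕ) : FiniteDimensional K (Lf a Q) := by
  have := (ab_se a).1
  have := (ab_cos (K := K) Q).1
  unfold Lf
  infer_instance

/-- `isAbelianGalois_sup` (`MP_1ef7cf_nt/Abelian.lean`) -/
instance ab_Lf (a : 𝓞 K) (Q : ℕ) : IsAbelianGalois K (Lf a Q) := by
  have := (ab_se a).2
  have := (ab_cos (K := K) Q).2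
  exact isAbelianGalois_sup

theorem se_mem (a : 𝓞 K) (Q : ℕ) : se a ∈ Lf a Q :=
  (le_sup_left : K⟮se a⟯ ≤ Lf a Q) (mem_adjoin_simple_self K _)

theorem cos_mem (a : 𝓞 K) (Q : ℕ) : Real.cos (2 * Real.pi / Q) ∈ Lf a Q :=
  (le_sup_right : K⟮Real.cos (2 * Real.pi / Q)⟯ ≤ Lf a Q) (mem_adjoin_simple_self K _)

/-- an automorphism is determined by its coordinates -/
theorem ext_coords {a : 𝓞 K} {Q : ℕ} {σ τ : Lf a Q ≃ₐ[K] Lf a Q}
    (h1 : act σ (se a) = act τ (se a))
    (h2 : act σ (Real.cos (2 * Real.pi / Q)) = act τ (Real.cos (2 * Real.pi / Q))) : σ = τ := by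
  have h3 : K⟮se a⟯ ≤ eqField σ τ := by
    rw [adjoin_simple_le_iff]
    exact ⟨se_mem a Q, h1⟩
  have h4 : K⟮Real.cos (2 * Real.pi / Q)⟯ ≤ eqField σ τ := by
    rw [adjoin_simple_le_iff]
    exact ⟨cos_mem a Q, h2⟩
  apply eq_of_eq_on_sup (L₁ := K⟮se a⟯) (L₂ := K⟮Real.cos (2 * Real.pi / Q)⟯) le_rfl
    (le_sup_left : K⟮se a⟯ ≤ Lf a Q)
    (le_sup_right : K⟮Real.cos (2 * Real.pi / Q)⟯ ≤ Lf a Q)
  · intro x hx; exact (h3 hx).2
  · intro x hx; exact (h4 hx).2

theorem Lf_mono (a : 𝓞 K) {Q Q' : ℕ} (h : Q ∣ Q') (hQ : Q' ≠ 0) : Lf a Q ≤ Lf a Q' := by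
  refine sup_le ?_ ?_
  · rw [adjoin_simple_le_iff]
    exact se_mem a Q'
  · rw [adjoin_simple_le_iff]
    exact cos_mem_of_dvd _ h hQ (cos_mem a Q')

theorem Co.ext {a : 𝓞 K} {Q : ℕ} {σ τ : Lf a Q ≃ₐ[K] Lf a Q} {s : ℤ} {b : ℕ}
    (h : Co a Q σ s b) (h' : Co a Q τ s b) : σ = τ :=
  ext_coords (h.hs.trans h'.hs.symm) (h.hc.trans h'.hc.symm)

lemma F08_act_int {H : IntermediateField K ℝ} (σ : H ≃ₐ[K] H) (n : ℤ) :
    act σ (n : ℝ) = n := by
  have := act_algebraMap σ (n : K)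
  rwa [map_intCast] at this

/-- composition (`act_cos_mul`) -/
theorem Co.mul {a : 𝓞 K} {Q : ℕ} {H : IntermediateField K ℝ} (hs : se a ∈ H)
    (hk : Real.cos (2 * Real.pi / Q) ∈ H) {σ τ : H ≃ₐ[K] H} {s s' : ℤ} {b b' : ℕ}
    (h : Co a Q σ s b) (h' : Co a Q τ s' b') : Co a Q (σ * τ) (s * s') (b * b') := by
  constructor
  · rw [act_comp _ _ hs, h'.hs, act_mul σ (intCast_mem H s') hs, F08_act_int, h.hs]
    push_cast
    ring
  · rw [act_comp _ _ hk, h'.hc, act_cos_mul hk σ h.hc b']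

theorem Co.one {a : 𝓞 K} {Q : ℕ} {H : IntermediateField K ℝ} (hs : se a ∈ H)
    (hk : Real.cos (2 * Real.pi / Q) ∈ H) : Co a Q (1 : H ≃ₐ[K] H) 1 1 := by
  constructor
  · rw [act_one_left hs]
    simp
  · rw [act_one_left hk]
    simp

/-- restriction to `Lf a Q` -/
theorem Co.res {a : 𝓞 K} {Q : ℕ} {H : IntermediateField K ℝ} (hL : Lf a Q ≤ H) {σ : H ≃ₐ[K] H}
    {s : ℤ} {b : ℕ} (h : Co a Q σ s b) : Co a Q (ST.res hL σ) s b := by
  constructor
  · rw [act_res hL σ (se_mem a Q), h.hs]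
  · rw [act_res hL σ (cos_mem a Q), h.hc]

end Pool.Agent.STh.F
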