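import Pool.Agent.Lib.MP_1ef7cf_nt_h.Q1

/-!
# Two successive levels
-/

open Complex

namespace Pool.Agent.STh

open Pool.Agent.STg

/-! Adapt `MP_1ef7cf_nt_g/U2a.lean`. Here `M (k + 1) = 2 M k`, `64 ∣ M k`. -/

variable (U : UD)

/-- the projection from the level `k + 1` to the level `k` -/
def pr (k : ℕ) : Gam (U.M (k + 1)) →* Gam (U.M k) :=
  MonoidHom.prodMap (MonoidHom.id _) (ZMod.unitsMap (U.M_dvd (Nat.le_succ k)))

/-- the non-trivial element of the kernel of `pr` -/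
def gam' (k : ℕ) : Gam (U.M (k + 1)) := (1, nu (U.M (k + 1)) (1 + U.M k))

lemma U2a_even (k : ℕ) : 2 ∣ U.M k := (by norm_num : 2 ∣ 64).trans (U.dvd64 k)

lemma U2a_cop {k m : ℕ} (hm : m.Coprime (U.M k)) : m.Coprime (U.M (k + 1)) := by
  rw [U.M_succ]
  exact Nat.Coprime.mul_right (Nat.Coprime.coprime_dvd_right (U2a_even U k) hm) hm

lemma U2a_cop' {k m : ℕ} (hm : m.Coprime (U.M (k + 1))) : m.Coprime (U.M k) :=
  Nat.Coprime.coprime_dvd_right (U.M_dvd (Nat.le_succ k)) hm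

lemma U2a_gam_cop (k : ℕ) : (1 + U.M k).Coprime (U.M (k + 1)) := by
  apply U2a_cop
  rw [Nat.add_comm]
  exact (Nat.coprime_self_add_left).2 (Nat.coprime_one_left _)

lemma U2a_mod {M n n' : ℕ} (hn' : Odd n') (h : n ≡ n' [MOD M]) :
    n ≡ n' [MOD 2 * M] ∨ n ≡ (1 + M) * n' [MOD 2 * M] := by
  have h1 : ((M : ℕ) : ℤ) ∣ (n' : ℤ) - n := Nat.modEq_iff_dvd.mp h
  obtain ⟨c, hc⟩ := h1
  obtain ⟨j, hj⟩ := hn'
  rcases Int.even_or_odd' c with ⟨d, hd | hd⟩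
  · left
    refine Nat.modEq_iff_dvd.mpr ⟨d, ?_⟩
    rw [hc, hd]
    push_cast
    ring
  · right
    refine Nat.modEq_iff_dvd.mpr ⟨d + 1 + j, ?_⟩
    have h2 : (n : ℤ) = n' - M * (2 * d + 1) := by
      rw [hd] at hc
      linarith
    rw [h2, hj]
    push_cast
    ring

lemma pr_surjective (k : ℕ) : Function.Surjective (pr U k) := by
  intro g
  have : NeZero (U.M (k + 1)) := ⟨U.M_ne_zero (k + 1)⟩
  obtain ⟨u, hu⟩ := ZMod.unitsMap_surjective (U.M_dvd (Nat.le_succ k)) g.2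
  refine ⟨(g.1, u), ?_⟩
  unfold pr
  rw [MonoidHom.prodMap_def]
  exact Prod.ext rfl hu

lemma pr_mk {k m : ℕ} (hm : m.Coprime (U.M k)) (u : GaussianIntˣ) :
    pr U k (u, nu (U.M (k + 1)) m) = (u, nu (U.M k) m) := by
  have h1 : ZMod.unitsMap (U.M_dvd (Nat.le_succ k)) (nu (U.M (k + 1)) m) = nu (U.M k) m := by
    apply Units.ext
    rw [ZMod.unitsMap_val, nu_coe (U2a_cop U hm), nu_coe hm]
    exact ZMod.cast_natCast (U.M_dvd (Nat.le_succ k)) m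
  exact Prod.ext rfl h1

lemma pr_zc (k : ℕ) : pr U k (zc _) = zc _ :=
  Prod.ext rfl (map_one (ZMod.unitsMap (U.M_dvd (Nat.le_succ k))))

/-- the fibers of `pr` have two elements -/
lemma pr_eq_iff {k : ℕ} (g g' : Gam (U.M (k + 1))) :
    pr U k g = pr U k g' ↔ g = g' ∨ g = gam' U k * g' := by
  obtain ⟨s, u⟩ := g
  obtain ⟨s', u'⟩ := g'
  obtain ⟨n, hn, rfl⟩ := exists_nu (U.M_ne_zero (k + 1)) u
  obtain ⟨n', hn', rfl⟩ := exists_nu (U.M_ne_zero (k + 1)) u'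
  have ho := U2a_gam_cop U k
  have hodd : Odd n' := by
    rw [← Nat.coprime_two_right]
    exact Nat.Coprime.coprime_dvd_right (U2a_even U (k + 1)) hn'
  rw [pr_mk U (U2a_cop' U hn), pr_mk U (U2a_cop' U hn'), Prod.mk.injEq,
    nu_eq_iff (U2a_cop' U hn) (U2a_cop' U hn'), Prod.mk.injEq]
  unfold gam'
  rw [Prod.mk_mul_mk, Prod.mk.injEq, one_mul, ← nu_mul ho hn', nu_eq_iff hn hn',
    nu_eq_iff hn (Nat.Coprime.mul_left ho hn')]
  constructor
  · rintro ⟨rfl, h⟩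
    rcases U2a_mod hodd h with h1 | h1
    · exact Or.inl ⟨rfl, by rw [U.M_succ]; exact h1⟩
    · exact Or.inr ⟨rfl, by rw [U.M_succ]; exact h1⟩
  · rintro (⟨rfl, h⟩ | ⟨rfl, h⟩)
    · exact ⟨rfl, h.of_dvd (U.M_dvd (Nat.le_succ k))⟩
    · refine ⟨rfl, (h.of_dvd (U.M_dvd (Nat.le_succ k))).trans ?_⟩
      refine Nat.modEq_iff_dvd.mpr ⟨-n', ?_⟩
      push_cast
      ring

lemma gam'_ne {k : ℕ} (g : Gam (U.M (k + 1))) : gam' U k * g ≠ g := by
  intro h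
  have h1 : gam' U k = 1 := mul_eq_right.mp h
  have h2 : nu (U.M (k + 1)) (1 + U.M k) = nu (U.M (k + 1)) 1 := by
    rw [nu_one]
    exact congrArg Prod.snd h1
  rw [nu_eq_iff (U2a_gam_cop U k) (Nat.coprime_one_left _)] at h2
  have h3 := (Nat.modEq_iff_dvd' (Nat.le_add_right 1 (U.M k))).mp h2.symm
  rw [Nat.add_sub_cancel_left] at h3
  have h5 : 0 < U.M k := Nat.pos_of_ne_zero (U.M_ne_zero k)
  have h4 := Nat.le_of_dvd h5 h3
  rw [U.M_succ] at h4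
  omega

lemma pr_sM {k : ℕ} {β : GaussianInt} (hβ : IsCoprime β ((U.n : ℕ) : GaussianInt)) :
    pr U k (sM U (k + 1) β) = sM U k β := by
  unfold sM
  exact pr_mk U (U.gN_coprime k hβ) _

lemma SS_pr {k : ℕ} (J : ℕ) (g : Gam (U.M (k + 1))) :
    SS U k J (pr U k g) = SS U (k + 1) J g + SS U (k + 1) J (gam' U k * g) := by
  classical
  unfold SS
  rw [← Finset.sum_add_distrib]
  refine Finset.sum_congr rfl fun a ha => ?_
  have hp : IsCoprime a ((U.n : ℕ) : GaussianInt) :=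
    U.coprime_n ((isPR_PR (U.f_ne_zero J)).1 a ha).2
  rw [← pr_sM U hp]
  have h1 := pr_eq_iff U (sM U (k + 1) a) g
  have h2 := gam'_ne U g
  by_cases e1 : sM U (k + 1) a = g
  · rw [if_pos (h1.mpr (Or.inl e1)), if_pos e1, if_neg (by rw [e1]; exact h2.symm), add_zero]
  · by_cases e2 : sM U (k + 1) a = gam' U k * g
    · rw [if_pos (h1.mpr (Or.inr e2)), if_neg e1, if_pos e2, zero_add]
    · rw [if_neg (fun h => (h1.mp h).elim e1 e2), if_neg e1, if_neg e2, add_zero]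

lemma xv_pr {k : ℕ} (J : ℕ) (g : Gam (U.M (k + 1))) :
    xv U k J (pr U k g) = xv U (k + 1) J g * xv U (k + 1) J (gam' U k * g) := by
  unfold xv
  rw [← pr_zc U k, ← map_mul, SS_pr U, SS_pr U, ← Real.exp_add, mul_left_comm (gam' U k)]
  congr 1
  ring

end Pool.Agent.STh
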