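import Pool.Agent.Lib.MP_1ef7cf_nt_h.D9

/-!
# The quartic symbol is periodic modulo `n`
-/

open Complex

namespace Pool.Agent.STh

open Pool.Agent.STg

/-- **Periodicity.** -/
theorem UD.per (U : UD) {a b : GaussianInt} (ha : Prim a)
    (han : IsCoprime a ((U.n : ℕ) : GaussianInt)) (h : ((U.n : ℕ) : GaussianInt) ∣ a - b) :
    U.κ a = U.κ b := by
  obtain ⟨κ, hκ, -⟩ := exists_kappa U.D U.d_ne_zero (UD.dvd_of (dvd_refl U.n)) U.n0 U.r_pow
  have h3 : (⟨1, 1⟩ : GaussianInt) ^ 3 ∣ ((U.n : ℕ) : GaussianInt) := by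
    have := U.cube_dvd 0
    rwa [UD.f, U.M_zero] at this
  have hb : Prim b := by
    have h1 : (⟨1, 1⟩ : GaussianInt) ^ 3 ∣ a - 1 := ha
    have h2 := dvd_sub h1 (h3.trans h)
    change (⟨1, 1⟩ : GaussianInt) ^ 3 ∣ b - 1
    rwa [show a - 1 - (a - b) = b - 1 by ring] at h2
  have hbn : IsCoprime b ((U.n : ℕ) : GaussianInt) := by
    obtain ⟨c, hc⟩ := h
    have e : b = a + ((U.n : ℕ) : GaussianInt) * (-c) := by linear_combination -hc
    rw [e]
    exact han.add_mul_left_left _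
  have h1 := hκ.per a b ha hb han h
  rw [U.kap_eq (dvd_refl _) hκ a ha han, U.kap_eq (dvd_refl _) hκ b hb hbn] at h1
  exact Units.ext h1

end Pool.Agent.STh
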