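import Pool.Agent.Lib.MP_1ef7cf_nt.Core2
import Pool.Agent.Lib.MP_1ef7cf_nt_g.Mg.G047
import Pool.Agent.Lib.MP_1ef7cf_nt_h.Mg.G014

/-!
# The action of the automorphisms on Galois functions
-/

open NumberField IsDedekindDomain Pool.Agent.ST IntermediateField

namespace Pool.Agent.STh

open Pool.Agent.STg Pool.Agent.STh.F

/-! Adapt `MP_1ef7cf_nt_g/Z1.lean`. -/

variable {K : Type*} [Field K] [NumberField K] [Algebra K ℝ] {σ₂ : K →+* ℝ} {a : 𝓞 K}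

private noncomputable def Z1_inc (U : UD) (D : FD σ₂ U.d a) (k : ℕ) :
    Rk U k →+* Lf a (U.M k) where
  toFun x := ⟨(x : ℝ), (mem_Lf_iff U D k _).2 x.2⟩
  map_one' := rfl
  map_mul' _ _ := rfl
  map_zero' := rfl
  map_add' _ _ := rfl

private lemma Z1_ap_of_mem {U : UD} {k : ℕ} (φ : Rk U k →+* ℂ) {x : ℝ} (hx : x ∈ Rk U k) :
    ap φ x = φ ⟨x, hx⟩ := dif_pos hx

/-- transfer of embeddings -/
theorem exists_emb (U : UD) (D : FD σ₂ U.d a) {k : ℕ} (g : Lf a (U.M k) →+* ℂ) :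
    ∃ φ : Rk U k →+* ℂ, ∀ x ∈ Rk U k, ap φ x = emb g x := by
  refine ⟨g.comp (Z1_inc U D k), fun x hx => ?_⟩
  rw [Z1_ap_of_mem _ hx, emb_of_mem g ((mem_Lf_iff U D k x).2 hx)]
  rfl

/-- an automorphism gives an embedding -/
theorem exists_emb_act (U : UD) (D : FD σ₂ U.d a) {k : ℕ}
    (γ : Lf a (U.M k) ≃ₐ[K] Lf a (U.M k)) :
    ∃ φ : Rk U k →+* ℂ, ∀ x ∈ Rk U k, ap φ x = (act γ x : ℂ) := by
  refine ⟨Complex.ofRealHom.comp ((algebraMap (Lf a (U.M k)) ℝ).comp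
    ((γ : Lf a (U.M k) →+* Lf a (U.M k)).comp (Z1_inc U D k))), fun x hx => ?_⟩
  rw [Z1_ap_of_mem _ hx, act_of_mem γ ((mem_Lf_iff U D k x).2 hx)]
  rfl

/-- coordinates of the automorphisms: `exists_coord` -/
theorem exists_coords (U : UD) (D : FD σ₂ U.d a) {k : ℕ}
    (γ : Lf a (U.M k) ≃ₐ[K] Lf a (U.M k)) : ∃ (s : ℤˣ) (b : ℕ), b % 4 = 1 ∧
      b.Coprime (U.M k) ∧ Co a (U.M k) γ (s : ℤ) b := by
  obtain ⟨φ, hφ⟩ := exists_emb_act U D γ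
  obtain ⟨b, hb4, hb, hc⟩ := exists_coord U k φ
  rw [hφ _ (cq_mem U k)] at hc
  have h2 : act γ (Real.cos (2 * Real.pi / (U.M k))) = Real.cos (2 * Real.pi * b / (U.M k)) :=
    Complex.ofReal_injective hc
  have h3 : act γ (se a) ^ 2 = se a ^ 2 := by
    rw [← act_pow γ (se_mem a _), D.se_sq, act_algebraMap]
  rcases sq_eq_sq_iff_eq_or_eq_neg.1 h3 with h4 | h4
  · exact ⟨1, b, hb4, hb, ⟨by rw [h4]; simp, h2⟩⟩
  · exact ⟨-1, b, hb4, hb, ⟨by rw [h4]; simp, h2⟩⟩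

/-- the action on a Galois function -/
theorem act_gf (U : UD) (D : FD σ₂ U.d a) {k : ℕ} {y : Gam (U.M k) → ℝ}
    (hy : IsGF U k y) (γ : Lf a (U.M k) ≃ₐ[K] Lf a (U.M k)) {s : ℤˣ} {b : ℕ} (hb4 : b % 4 = 1)
    (hb : b.Coprime (U.M k)) (h : Co a (U.M k) γ (s : ℤ) b) (g : Gam (U.M k)) :
    act γ (y g) = y ((sg s, nu (U.M k) b) * g) := by
  obtain ⟨φ, hφ⟩ := exists_emb_act U D γ
  have e1 : ap φ U.r = ((s : ℤ) : ℂ) * (U.r : ℂ) := by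
    rw [hφ _ (UD.r_mem U k), ← se_eq U D, h.hs]
    push_cast
    ring
  have e2 : ap φ (cq (U.M k)) = (Real.cos (2 * Real.pi * b / U.M k) : ℂ) := by
    rw [hφ _ (cq_mem U k)]
    unfold cq
    rw [h.hc]
  have e3 := hy.gal φ s b hb4 hb e1 e2 g
  rw [hφ _ (hy.mem g)] at e3
  exact Complex.ofReal_injective e3

/-- absolute values over the second embedding -/
theorem abs_gf (U : UD) (D : FD σ₂ U.d a) {k : ℕ} {y : Gam (U.M k) → ℝ}
    (hy : IsGF U k y) (g : Lf a (U.M k) →+* ℂ) (hg : Over σ₂ g) (c : Gam (U.M k)) :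
    ‖emb g (y c)‖ = 1 := by
  obtain ⟨φ, hφ⟩ := exists_emb U D g
  have he : U.e ∈ Rk U k := UD.e_mem U k
  have e1 : ap φ U.e = -(U.e : ℂ) := by
    rw [hφ _ he, ← a_eq U D]
    have h2 : algebraMap K ℝ (a : K) ∈ Lf a (U.M k) := (Lf a (U.M k)).algebraMap_mem _
    rw [emb_of_mem g h2]
    have h3 := hg (a : K)
    have h4 : (⟨algebraMap K ℝ (a : K), h2⟩ : Lf a (U.M k)) =
        algebraMap K (Lf a (U.M k)) (a : K) := rfl
    rw [h4, h3, D.sig, ← D.alg]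
    push_cast
    rfl
  have e2 := hy.abs φ e1 c
  rwa [hφ _ (hy.mem c)] at e2

end Pool.Agent.STh
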