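import Pool.Agent.Lib.MP_1ef7cf_nt_h.Mg.G013

/-!
# Squares: the elliptic units for rational `α`
-/

open Complex

namespace Pool.Agent.STh

open Pool.Agent.STg

variable (U : UD)

lemma V6_lam_conj {u : ℂ} (h : starRingEnd ℂ u ∈ Lam) : u ∈ Lam := by
  obtain ⟨c, hc⟩ := h
  refine ⟨star c, ?_⟩
  have hc' : (c : ℂ) = starRingEnd ℂ u := hc
  change ((star c : GaussianInt) : ℂ) = u
  rw [GaussianInt.toComplex_star, hc', Complex.conj_conj]

lemma V6_conj_cast {a : GaussianInt} (ha : star a = a) : starRingEnd ℂ (a : ℂ) = (a : ℂ) := by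
  rw [← GaussianInt.toComplex_star, ha]

lemma V6_aux_TFin {α : GaussianInt} (hα0 : α ≠ 0) (hα : star α = α) {t : ℂ}
    (ht : t ∈ TFin U.D.X α) : starRingEnd ℂ t ∈ TFin U.D.X α := by
  rw [U.D.mem_TFin hα0] at ht ⊢
  obtain ⟨u, hu, hαu, rfl⟩ := ht
  refine ⟨starRingEnd ℂ u, ?_, ?_, U.conj u⟩
  · intro h
    exact hu (V6_lam_conj h)
  · apply V6_lam_conj
    rw [map_mul, Complex.conj_conj, V6_conj_cast hα]
    exact hαu

/-- complex conjugation permutes the values at the `α`-torsion points if `star α = α`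
(`U.conj`; `Lam` is stable under conjugation) -/
lemma conj_TFin {α : GaussianInt} (hα0 : α ≠ 0) (hα : star α = α) (t : ℂ) :
    starRingEnd ℂ t ∈ TFin U.D.X α ↔ t ∈ TFin U.D.X α := by
  refine ⟨fun h => ?_, V6_aux_TFin U hα0 hα⟩
  have h1 := V6_aux_TFin U hα0 hα h
  rwa [Complex.conj_conj] at h1

lemma V6_star_f (J : ℕ) : star (U.f J) = U.f J := by
  unfold UD.f
  exact star_natCast _

/-- `conj (th α f a) = th α f (star a)` for `star α = α`, `star f = f` -/
lemma conj_th {α : GaussianInt} (hα0 : α ≠ 0) (hα : star α = α) (J : ℕ) (a : GaussianInt) :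
    starRingEnd ℂ (th U.D α (U.f J) a) = th U.D α (U.f J) (star a) := by
  unfold th
  rw [map_prod]
  have h1 : starRingEnd ℂ (U.D.X ((a : ℂ) / (U.f J : ℂ))) =
      U.D.X (((star a : GaussianInt) : ℂ) / (U.f J : ℂ)) := by
    rw [← U.conj, map_div₀, V6_conj_cast (V6_star_f U J), GaussianInt.toComplex_star]
  refine Finset.prod_nbij' (starRingEnd ℂ) (starRingEnd ℂ) ?_ ?_ ?_ ?_ ?_
  · intro t ht
    exact (conj_TFin U hα0 hα t).2 ht
  · intro t ht
    exact (conj_TFin U hα0 hα t).2 ht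
  · intro t _
    exact Complex.conj_conj t
  · intro t _
    exact Complex.conj_conj t
  · intro t _
    rw [map_sub, h1]

lemma V6_gN_star (a : GaussianInt) : gN (star a) = gN a := by
  have h1 := Q_gN (star a)
  have h2 := Q_gN a
  rw [Zsqrtd.re_star, Zsqrtd.im_star] at h1
  have h3 : ((gN (star a) : ℕ) : ℤ) = ((gN a : ℕ) : ℤ) := by
    rw [h1, h2]
    ring
  exact_mod_cast h3

lemma V6_kap_star {a : GaussianInt} {s : ℤˣ} (h : U.κ a = sg s) : U.κ (star a) = sg s := by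
  apply Units.ext
  rw [U.st, h, sg_coe]
  exact star_intCast _

/-- the coordinates of the conjugate: for `κ a = s = ± 1`, `κ (star a) = s` (`U.st`), and
`gN (star a) = gN a`. -/
lemma sM_star (k : ℕ) {a : GaussianInt} {s : ℤˣ} {x : (ZMod (U.M k))ˣ} :
    sM U k (star a) = (sg s, x) ↔ sM U k a = (sg s, x) := by
  unfold sM
  rw [Prod.mk.injEq, Prod.mk.injEq, V6_gN_star]
  constructor
  · rintro ⟨h1, h2⟩
    refine ⟨?_, h2⟩
    have h3 := V6_kap_star U h1
    rwa [star_star] at h3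
  · rintro ⟨h1, h2⟩
    exact ⟨V6_kap_star U h1, h2⟩

lemma V6_prim_star {a : GaussianInt} (h : Prim a) : Prim (star a) := by
  rw [prim_iff] at h ⊢
  rw [Zsqrtd.re_star, Zsqrtd.im_star]
  obtain ⟨h1, h2⟩ := h
  rw [Int.even_iff] at h1 ⊢
  omega

lemma V6_cop_star {a : GaussianInt} {J : ℕ} (h : IsCoprime a (U.f J)) :
    IsCoprime (star a) (U.f J) := by
  obtain ⟨x, y, hxy⟩ := h
  refine ⟨star x, star y, ?_⟩
  have h1 := congrArg star hxy
  rw [star_add, star_mul, star_mul, star_one, V6_star_f] at h1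
  linear_combination h1

lemma V6_dvd_star {a b : GaussianInt} {J : ℕ} (h : U.f J ∣ a - b) :
    U.f J ∣ star a - star b := by
  obtain ⟨c, hc⟩ := h
  refine ⟨star c, ?_⟩
  have h1 := congrArg star hc
  rw [star_sub, star_mul, V6_star_f] at h1
  rw [h1, mul_comm]

/-- **The product `pp` is real** if `g = (± 1, x)` and `star α = α`: conjugation maps the term of `a` to the term of
`star a` (`conj_th`), which is congruent to a unique representative `a'` in `PR f` (`star a` is primary: `prim_iff`),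
`th_per`, `sM_per`, `sM_star`; `a ↦ a'` is a bijection of the set of the `a ∈ PR f` with `sM a = g`
(it is an involution). -/
lemma conj_pp {k J : ℕ} (hJ : k ≤ J) {α : GaussianInt} (hα : Prim α) (hα' : star α = α)
    (s : ℤˣ) (x : (ZMod (U.M k))ˣ) :
    starRingEnd ℂ (pp U k J α (sg s, x)) = pp U k J α (sg s, x) := by
  classical
  have hf0 := U.f_ne_zero J
  have hα0 : α ≠ 0 := hα.odd.ne_zero
  have hS := isPR_PR hf0
  have hex : ∀ a, ∀ _ : a ∈ PR (U.f J), ∃ c, c ∈ PR (U.f J) ∧ U.f J ∣ star a - c := by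
    intro a ha
    obtain ⟨h1, h2⟩ := hS.1 a ha
    obtain ⟨c, hc, -⟩ := hS.2 (star a) (V6_prim_star h1) (V6_cop_star U h2)
    exact ⟨c, hc⟩
  choose i hi1 hi2 using hex
  have huniq : ∀ a ∈ PR (U.f J), ∀ b ∈ PR (U.f J), U.f J ∣ a - b → a = b := by
    intro a ha b hb hab
    obtain ⟨h1, h2⟩ := hS.1 a ha
    obtain ⟨c, -, hc⟩ := hS.2 a h1 h2
    rw [hc a ⟨ha, by rw [sub_self]; exact dvd_zero _⟩, hc b ⟨hb, hab⟩]
  unfold pp
  rw [map_prod]
  refine Finset.prod_bij (fun a ha => i a ha) (fun a ha => hi1 a ha) ?_ ?_ ?_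
  · intro a ha b hb hab
    have hab' : i a ha = i b hb := hab
    have h1 : U.f J ∣ star a - star b := by
      have h2 := dvd_sub (hi2 a ha) (hi2 b hb)
      rw [hab'] at h2
      rwa [show star a - i b hb - (star b - i b hb) = star a - star b by ring] at h2
    have h3 := V6_dvd_star U h1
    rw [star_star, star_star] at h3
    exact huniq a ha b hb h3
  · intro b hb
    refine ⟨i b hb, hi1 b hb, ?_⟩
    refine huniq _ (hi1 _ _) b hb ?_
    have h1 := V6_dvd_star U (hi2 b hb)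
    rw [star_star] at h1
    have h2 := hi2 (i b hb) (hi1 b hb)
    have h3 := dvd_add h1 h2
    rw [show b - star (i b hb) + (star (i b hb) - i (i b hb) (hi1 b hb)) =
      b - i (i b hb) (hi1 b hb) by ring] at h3
    rw [← neg_sub]
    exact (dvd_neg).2 h3
  · intro a ha
    obtain ⟨h1, h2⟩ := hS.1 a ha
    have h3 : sM U k (star a) = sM U k (i a ha) :=
      sM_per U hJ (V6_prim_star h1) (U.coprime_n (V6_cop_star U h2)) (hi2 a ha)
    have h4 : th U.D α (U.f J) (star a) = th U.D α (U.f J) (i a ha) := th_per U.D hf0 (hi2 a ha)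
    rw [← h3, ← h4]
    by_cases h5 : sM U k a = (sg s, x)
    · rw [if_pos h5, if_pos ((sM_star U k).2 h5), conj_th U hα0 hα']
    · rw [if_neg h5, if_neg (fun h => h5 ((sM_star U k).1 h)), map_one]

/-- so `vv (sg s, x)` is a real number in `Rk`, and `xv (sM α g) = xv g ^ N(α) y ^ 2` (`xv_vv`,
`exists_zc`, `re_im_mem`, `pp_mem_Nk`); `zc * (sg s, x) = (sg (-s), x)`. -/
lemma xv_real {k J : ℕ} (hJ : k ≤ J) {α : GaussianInt} (hα : Prim α) (hα' : star α = α)
    (hαn : IsCoprime α ((U.n : ℕ) : GaussianInt)) (s : ℤˣ) (x : (ZMod (U.M k))ˣ) :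
    ∃ y ∈ Rk U k, y ≠ 0 ∧
      xv U k J (sM U k α * (sg s, x)) = xv U k J (sg s, x) ^ gN α * y ^ 2 := by
  have hzc : zc (U.M k) * (sg s, x) = (sg (-s), x) := by
    unfold zc
    rw [Prod.mk_mul_mk, one_mul, ← sg_neg_one, ← map_mul, neg_one_mul]
  have h1 : starRingEnd ℂ (vv U k J α (sg s, x)) = vv U k J α (sg s, x) := by
    unfold vv
    rw [map_div₀, hzc, conj_pp U hJ hα hα', conj_pp U hJ hα hα']
  have h2 : (((vv U k J α (sg s, x)).re : ℝ) : ℂ) = vv U k J α (sg s, x) :=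
    Complex.conj_eq_iff_re.1 h1
  have hne := vv_ne_zero U (k := k) (J := J) hα hαn (sg s, x)
  refine ⟨(vv U k J α (sg s, x)).re, (re_im_mem U k (vv_mem_Nk U hJ hα hαn _)).1, ?_, ?_⟩
  · intro h3
    rw [h3] at h2
    exact hne (by rw [← h2, Complex.ofReal_zero])
  · obtain ⟨β, hβ, hβn, hβz⟩ := exists_zc_weak U k
    rw [xv_vv U hJ hα hαn ⟨β, hβ, hβn, hβz⟩]
    congr 1
    rw [← h2, Complex.norm_real, Real.norm_eq_abs, sq_abs, Complex.ofReal_re]

/-- **Squares.** Let `α = m` (a natural number, `m = 1` modulo `4`, so `α` is primary), `N(α) = m ^ 2` is odd,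
`κ(α) = 1` or `-1` (`U.st`, `exists_sg`). If `κ(α) = 1` then `sM α = (1, nu (m ^ 2))` and
`xv (sM α g) = xv g (xv g ^ ((N - 1) / 2) y) ^ 2`; if `κ(α) = -1` then `sM α = zc (1, nu (m ^ 2))`, use
`xv_zc`. (`xv g ∈ Rk` by `isGF_xv_all`.) -/
theorem xv_square {k J : ℕ} (hJ : k + 1 ≤ J) (hJ2 : 2 ≤ J) {m : ℕ} (hm : m % 4 = 1)
    (hmn : m.Coprime (U.M k)) (s : ℤˣ) (x : (ZMod (U.M k))ˣ) :
    ∃ y ∈ Rk U k, xv U k J ((1, nu (U.M k) m ^ 2) * (sg s, x)) = xv U k J (sg s, x) * y ^ 2 := by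
  have hα' : star ((m : ℕ) : GaussianInt) = ((m : ℕ) : GaussianInt) := star_natCast _
  have hα : Prim ((m : ℕ) : GaussianInt) := by
    rw [prim_iff]
    have h1 : (((m : ℕ) : GaussianInt)).re = (m : ℤ) := Zsqrtd.re_natCast m
    have h2 : (((m : ℕ) : GaussianInt)).im = 0 := Zsqrtd.im_natCast m
    rw [h1, h2]
    refine ⟨Even.zero, ?_⟩
    omega
  have hgN : gN ((m : ℕ) : GaussianInt) = m ^ 2 := by
    have h1 := mul_star_eq ((m : ℕ) : GaussianInt)
    rw [hα'] at h1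
    have h2 : ((m ^ 2 : ℕ) : GaussianInt) = ((gN ((m : ℕ) : GaussianInt) : ℕ) : GaussianInt) := by
      rw [← h1]
      push_cast
      ring
    exact (Nat.cast_injective h2).symm
  have hmn0 : m.Coprime U.n := Nat.Coprime.coprime_dvd_right (U.n_dvd_M k) hmn
  have hαn : IsCoprime ((m : ℕ) : GaussianInt) ((U.n : ℕ) : GaussianInt) := by
    apply coprime_of_gN
    rw [hgN]
    exact Nat.Coprime.pow_left 2 hmn0
  obtain ⟨s', hs'⟩ := exists_sg (u := U.κ ((m : ℕ) : GaussianInt)) (by rw [← U.st, hα'])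
  obtain ⟨y, hy, hy0, hxy⟩ := xv_real U (J := J) (by omega : k ≤ J) hα hα' hαn s x
  have hxm : xv U k J (sg s, x) ∈ Rk U k := (isGF_xv_all U hJ hJ2).mem _
  have hx0 : xv U k J (sg s, x) ≠ 0 := (xv_pos U _).ne'
  have hnu : nu (U.M k) (m ^ 2) = nu (U.M k) m ^ 2 := by
    rw [pow_two, pow_two, nu_mul hmn hmn]
  have hodd : m ^ 2 = 2 * ((m ^ 2 - 1) / 2) + 1 := by
    have h1 : m ^ 2 % 4 = 1 := by
      rw [Nat.pow_mod, hm]
    omega
  set t : ℕ := (m ^ 2 - 1) / 2 with ht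
  rw [hgN, hodd] at hxy
  rcases Int.units_eq_one_or s' with h1 | h1
  · have hsM : sM U k ((m : ℕ) : GaussianInt) = (1, nu (U.M k) m ^ 2) := by
      unfold sM
      rw [hs', h1, map_one, hgN, hnu]
    rw [hsM] at hxy
    refine ⟨xv U k J (sg s, x) ^ t * y, mul_mem (pow_mem hxm t) hy, ?_⟩
    rw [hxy]
    ring
  · have hsM : sM U k ((m : ℕ) : GaussianInt) = zc (U.M k) * (1, nu (U.M k) m ^ 2) := by
      unfold sM zc
      rw [hs', h1, sg_neg_one, hgN, hnu, Prod.mk_mul_mk, mul_one, one_mul]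
    rw [hsM, mul_assoc, xv_zc] at hxy
    refine ⟨(xv U k J (sg s, x) ^ (t + 1) * y)⁻¹, inv_mem (mul_mem (pow_mem hxm _) hy), ?_⟩
    rw [inv_eq_iff_eq_inv] at hxy
    rw [hxy]
    field_simp
    ring

end Pool.Agent.STh
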