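import Pool.Agent.Lib.MP_1ef7cf_nt_h.Mg.G015
import Pool.Agent.Lib.MP_1ef7cf_nt_h.Mg.G011
import Pool.Agent.Lib.MP_1ef7cf_nt_h.Mg.G002
import Pool.Agent.Lib.MP_1ef7cf_nt_h.Mg.G003

/-!
# Good elements
-/

open NumberField IsDedekindDomain Pool.Agent.ST Pool.Agent.STb Pool.Agent.STf IntermediateField

namespace Pool.Agent.STh

open Pool.Agent.STg Pool.Agent.STh.F

variable {K : Type*} [Field K] [NumberField K] [Algebra K ℝ] {σ₂ : K →+* ℝ} {a : 𝓞 K}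

/-- All conditions on the element `x` of `Lf a Q` for the modulus `m` and the field `L`. -/
structure Good (σ₂ : K →+* ℝ) (a : 𝓞 K) (m : Ideal (𝓞 K)) (Q : ℕ) (L : IntermediateField K ℝ)
    [Normal K L] (hLF : L ≤ Lf a Q) (x : ℝ) : Prop where
  pre : PreStark σ₂ (Lf a Q) x
  gk : ∀ τ : Lf a Q ≃ₐ[K] Lf a Q, ∃ (s : ℤˣ) (b : ℕ), Co a Q τ (s : ℤ) b ∧
    GK a m Q (s : ℤ) b (Real.log (act τ x))
  ab : IsAbelianGalois K (sqrtExt L (fibProd hLF x 1))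

/-- **The modulus `n`.** `x = xv U k J 1` with `J` from `sqrt_base`; `preStark_xv`; `exists_coords`, `act_gf`, `isGF_xv_all`,
`GK_base`. -/
theorem good_base (U : UD) (D : FD σ₂ U.d a) {k : ℕ} (hk : 1 ≤ k) {L : IntermediateField K ℝ}
    [FiniteDimensional K L] [IsAbelianGalois K L] (hLF : L ≤ Lf a (U.M k)) :
    ∃ x, Good σ₂ a (Ideal.span {(U.n : 𝓞 K)}) (U.M k) L hLF x := by
  obtain ⟨J, hJ, hJ2, hab⟩ := sqrt_base U D hk hLF
  refine ⟨xv U k J 1, preStark_xv U D hJ hJ2 1, ?_, hab⟩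
  intro τ
  obtain ⟨s, b, hb4, hb, hCo⟩ := exists_coords U D τ
  refine ⟨s, b, hCo, ?_⟩
  rw [act_gf U D (isGF_xv_all U hJ hJ2) τ hb4 hb hCo 1, mul_one]
  exact GK_base U D (by omega) s hb4 hb

variable {d : ℕ}

omit [Algebra K ℝ] in
lemma Z4a_coprime (v : HeightOneSpectrum (𝓞 K)) {Q : ℕ} (hvQ : (Q : 𝓞 K) ∉ v.asIdeal) :
    (Ideal.absNorm v.asIdeal).Coprime Q := by
  obtain ⟨p, f, hp, hf, hN, hpv⟩ := STg.F.absNorm_pow v
  rw [hN]
  refine Nat.Coprime.pow_left f ?_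
  rw [Nat.Prime.coprime_iff_not_dvd hp]
  rintro ⟨c, rfl⟩
  apply hvQ
  push_cast
  exact v.asIdeal.mul_mem_right _ hpv

omit [NumberField K] in
lemma Z4a_pre {H : IntermediateField K ℝ} [Normal K H] {ψ : H ≃ₐ[K] H} {x : ℝ}
    (hx : PreStark σ₂ H x) : PreStark σ₂ H (x / act ψ x) := by
  have hm := hx.mem
  have hm' := act_mem ψ hm
  refine ⟨div_mem hm hm', ?_, ?_, ?_, ?_⟩
  · intro σ
    rw [act_div σ hm hm', ← act_comp _ _ hm]
    exact div_pos (hx.pos _) (hx.pos _)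
  · rw [div_eq_mul_inv, ← act_inv ψ hm]
    exact hx.int.mul (isIntegral_act ψ (inv_mem hm) hx.int_inv)
  · rw [inv_div, div_eq_mul_inv]
    exact (isIntegral_act ψ hm hx.int).mul hx.int_inv
  · intro g hg
    rw [div_eq_mul_inv, emb_mul g hm (inv_mem hm'), emb_inv g hm', norm_mul, norm_inv,
      hx.abs g hg, hx.abs_act ψ hg]
    norm_num

/-- **Adding a prime.** `N(v)` is prime to `Q` (`N(v) = p ^ f`, `p ∈ v`, `Q ∉ v`: `STg.F.absNorm_pow`). Let `φ` have the coordinates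
`chiP a v`, `N(v)` (`exists_sig_prime`), `x' = x / act φ⁻¹ x`. `pre`: quotient of two elements with `PreStark` (`act φ⁻¹ x`: the group is
commutative; `PreStark.abs_act`; `emb_inv`, `emb_mul`). `gk`: for `τ` with the data `(s, b)` let `(s', b')` be the data of `τ φ⁻¹`;
`τ = (τ φ⁻¹) φ`, so `s = s' chiP`, i.e. `s' = s chiP`, and `cos (2 π b / Q) = cos (2 π b' N(v) / Q)` (`Co.mul`, `cos_mod_iff`): `GK_mul`;
`log (act τ x') = log (act τ x) - log (act (τ φ⁻¹) x)`. `ab`: `fibProd x' 1 = y / act φ₁⁻¹ y`, `y = fibProd x 1 ∈ L`, `φ₁ = res φ`. The field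
`M = sqrtExt L y` is abelian over `K`; let `ψ` be an extension of `φ₁⁻¹` to `M` (`res_surjective`): `act ψ √y = ± √(act φ₁⁻¹ y)`. So
`√(y / act φ₁⁻¹ y) ∈ M` and `sqrtExt L (fibProd x' 1) ≤ M`; `isAbelianGalois_of_le`. -/
theorem Good.mul (D : FD σ₂ d a) {Q : ℕ} (hQ : Q ≠ 0) (hdQ : 2 * d ∣ Q) {m : Ideal (𝓞 K)}
    {v : HeightOneSpectrum (𝓞 K)} (hv : ¬ v.asIdeal ∣ m) (hvQ : (Q : 𝓞 K) ∉ v.asIdeal)
    {L : IntermediateField K ℝ} [FiniteDimensional K L] [IsAbelianGalois K L]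
    {hLF : L ≤ Lf a Q} {x : ℝ} (h : Good σ₂ a m Q L hLF x) :
    ∃ x', Good σ₂ a (m * v.asIdeal) Q L hLF x' := by
  obtain ⟨φ, hφ⟩ := exists_sig_prime D hQ hdQ v hvQ
  have hx := h.pre
  have hmem := hx.mem
  have hφm : act φ⁻¹ x ∈ Lf a Q := act_mem _ hmem
  have hx' := Z4a_pre (ψ := φ⁻¹) hx
  refine ⟨x / act φ⁻¹ x, hx', ?_, ?_⟩
  · intro τ
    obtain ⟨s, b, hCo, hG⟩ := h.gk τ
    obtain ⟨s', b', hCo', hG'⟩ := h.gk (τ * φ⁻¹)
    refine ⟨s, b, hCo, ?_⟩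
    have h1 : Co a Q τ ((s' : ℤ) * chiP a v.asIdeal) (b' * Ideal.absNorm v.asIdeal) := by
      have h2 := Co.mul (se_mem a Q) (cos_mem a Q) hCo' hφ
      rwa [inv_mul_cancel_right] at h2
    have hse : se a ≠ 0 := D.se_pos.ne'
    have hs1 : (s : ℤ) = (s' : ℤ) * chiP a v.asIdeal := by
      have h2 := hCo.hs.symm.trans h1.hs
      have h3 := mul_right_cancel₀ hse h2
      exact_mod_cast h3
    have hs2 : (s' : ℤ) = (s : ℤ) * chiP a v.asIdeal := by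
      rw [hs1, mul_assoc]
      rcases chiP_sq a v.asIdeal with h2 | h2 <;> rw [h2] <;> ring
    have hb1 : (Q : ℤ) ∣ (Ideal.absNorm v.asIdeal : ℤ) * b' - b ∨
        (Q : ℤ) ∣ (Ideal.absNorm v.asIdeal : ℤ) * b' + b := by
      have h2 := hCo.hc.symm.trans h1.hc
      have h3 := (cos_mod_iff hQ ((b' * Ideal.absNorm v.asIdeal : ℕ) : ℤ) (b : ℤ)).1 (by
        rw [Int.cast_natCast, Int.cast_natCast]
        exact h2.symm)
      rcases h3 with h3 | h3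
      · left
        push_cast at h3
        rwa [mul_comm (b' : ℤ)] at h3
      · right
        push_cast at h3
        rwa [mul_comm (b' : ℤ)] at h3
    have hlog : Real.log (act τ (x / act φ⁻¹ x)) =
        Real.log (act τ x) - Real.log (act (τ * φ⁻¹) x) := by
      rw [act_div τ hmem hφm, Real.log_div (act_ne_zero τ hmem hx.pos'.ne')
        (act_ne_zero τ hφm (act_ne_zero _ hmem hx.pos'.ne')), act_comp _ _ hmem]
    rw [hlog]
    exact GK_mul hv (Z4a_coprime v hvQ) hs2 hb1 hG hG'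
  · have hab := h.ab
    set y := fibProd hLF x 1 with hy
    have hyL : y ∈ L := fibProd_mem_base hLF hmem 1
    have hyP : PreStark σ₂ L y := hx.fibProd hLF
    set ψ := res hLF φ⁻¹ with hψ
    have h1 : fibProd hLF (x / act φ⁻¹ x) 1 = y / act ψ y := by
      have h2 : act ψ y = ∏ γ ∈ fib hLF (1 : L ≃ₐ[K] L), act γ (act φ⁻¹ x) := by
        rw [hψ, act_res hLF φ⁻¹ hyL, hy]
        unfold fibProd
        rw [act_prod _ _ _ fun γ _ => act_mem γ hmem]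
        exact Finset.prod_congr rfl fun γ _ => act_act_comm _ _ hmem
      rw [h2, hy]
      unfold fibProd
      rw [← Finset.prod_div_distrib]
      exact Finset.prod_congr rfl fun γ _ => act_div γ hmem hφm
    rw [h1]
    have h3 : Real.sqrt (y / act ψ y) ∈ sqrtExt L y := by
      rw [Real.sqrt_div hyP.pos'.le]
      exact div_mem (sqrt_mem_sqrtExt L y) (sqrt_act_mem hyL hyP.pos ψ)
    exact isAbelianGalois_of_le (M := sqrtExt L y) (sqrtExt_le (le_sqrtExt L y) h3)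

/-- `GK_congr` -/
lemma Good.congr {Q : ℕ} {m m' : Ideal (𝓞 K)} (hm : m ≠ ⊥) (hm' : m' ≠ ⊥)
    (hmm : ∀ v : HeightOneSpectrum (𝓞 K), v.asIdeal ∣ m ↔ v.asIdeal ∣ m')
    {L : IntermediateField K ℝ} [Normal K L] {hLF : L ≤ Lf a Q} {x : ℝ}
    (h : Good σ₂ a m Q L hLF x) : Good σ₂ a m' Q L hLF x := by
  refine ⟨h.pre, fun τ => ?_, h.ab⟩
  obtain ⟨s, b, hCo, hG⟩ := h.gk τ
  exact ⟨s, b, hCo, GK_congr hm hm' hmm hG⟩

end Pool.Agent.STh
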