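import Pool.Agent.Lib.MP_1ef7cf_nt_g.Mg.G034
import Pool.Agent.Lib.MP_1ef7cf_nt_g.Mg.G038
import Pool.Agent.Lib.MP_1ef7cf_nt_g.Mg.G039

/-!
# All primary elements prime to `n` act
-/

open NumberField IsDedekindDomain Pool.Agent.ST Complex Pool.Agent.STg

namespace Pool.Agent.STh

lemma gN_eq_of_associated {a b : GaussianInt} (h : Associated a b) : gN a = gN b := by
  obtain ⟨u, rfl⟩ := h
  have h1 : gN (u : GaussianInt) = 1 := by
    obtain ⟨w, hw⟩ := u.isUnit.exists_right_inv
    have h1 := congrArg gN hw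
    rw [gN_mul, gN_one] at h1
    exact Nat.eq_one_of_mul_eq_one_right h1
  rw [gN_mul, h1, mul_one]

/-- the prime ideal generated by a Gaussian prime -/
lemma exists_spec {π : GaussianInt} (h : Prime π) :
    ∃ P : PrI QI, P.asIdeal = Ideal.span {gi π} := by
  have h1 : Prime (gi π) := (MulEquiv.prime_iff gi).2 h
  refine ⟨⟨Ideal.span {gi π}, (Ideal.span_singleton_prime h1.ne_zero).2 h1, ?_⟩, rfl⟩
  intro h2
  exact h1.ne_zero (Ideal.span_singleton_eq_bot.1 h2)

/-- Frobenius elements over Gaussian primes -/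
lemma exists_frob_data (E : IntermediateField QI ℂ) [NumberField E] [IsGalois QI E]
    {π : GaussianInt} (hπ : Prime π) : ∃ (P : PrI E) (V : ValuationSubring ℂ) (σ : E ≃ₐ[QI] E),
      OverP P V ∧ IsFrob QI P σ ∧ V.valuation (π : ℂ) < 1 ∧ pn (und QI P) = gN π := by
  obtain ⟨p, hp⟩ := exists_spec hπ
  obtain ⟨P, hP⟩ := exists_ovr (K := QI) (L := E) p
  obtain ⟨V, hV⟩ := exists_overP P
  obtain ⟨σ, hσ⟩ := exists_isFrob (K := QI) P
  have hmem : gi π ∈ (und QI P).asIdeal := by
    rw [hP, hp]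
    exact Ideal.mem_span_singleton_self _
  refine ⟨P, V, σ, hV, hσ, (hV.gauss π).2 hmem, ?_⟩
  obtain ⟨π', hπ', hpn, hdvd⟩ := exists_prime_pn (und QI P)
  have h1 : π' ∣ π := (hdvd π).1 hmem
  rw [hpn]
  exact gN_eq_of_associated (hπ'.associated_of_dvd hπ h1)

/-- induction over the primary factorization -/
lemma prim_induction {p : GaussianInt → Prop} (h1 : p 1)
    (hmul : ∀ π β : GaussianInt, Prime π → Prim π → Prim β → p β → p (π * β))
    (β : GaussianInt) (hβ : Prim β) : p β := by
  have key : ∀ (N : ℕ) (β : GaussianInt), gN β = N → Prim β → p β := by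
    intro N
    induction N using Nat.strong_induction_on with
    | _ N ih =>
      intro β hN hβ
      have hβ0 : β ≠ 0 := by
        rintro rfl
        have := hβ.gN_mod
        have h0 : gN 0 = 0 := by decide
        omega
      by_cases hu : IsUnit β
      · have h2 : β = 1 := hβ.eq_of_associated prim_one (associated_one_iff_isUnit.2 hu)
        rw [h2]
        exact h1
      · obtain ⟨ρ, hρ, c, hc⟩ := WfDvdMonoid.exists_irreducible_factor hu hβ0
        have hρ' : Prime ρ := hρ.prime
        have hρodd : gOdd ρ := by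
          have h3 : Odd (gN β) := hβ.odd
          rw [hc, gN_mul, Nat.odd_mul] at h3
          exact h3.1
        obtain ⟨u, hu', hP⟩ := exists_prim_assoc hρodd
        have hπ : Prime (u * ρ) := (associated_unit_mul_right ρ u hu').prime_iff.1 hρ'
        obtain ⟨w, hw⟩ := hu'.exists_right_inv
        have hc' : β = (u * ρ) * (w * c) := by
          calc β = (u * w) * (ρ * c) := by rw [hw, one_mul, hc]
            _ = _ := by ring
        have hPc : Prim (w * c) := by
          unfold Prim at *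
          have h4 : w * c - 1 = (β - 1) - (u * ρ - 1) * (w * c) := by
            rw [hc']
            ring
          rw [h4]
          exact dvd_sub hβ (Dvd.dvd.mul_right hP _)
        have hlt : gN (w * c) < N := by
          rw [← hN, hc', gN_mul (u * ρ) (w * c)]
          have h5 : 0 < gN (w * c) := by
            apply gN_pos
            rintro h
            rw [h, mul_zero] at hc'
            exact hβ0 hc'
          have h6 : 1 < gN (u * ρ) := by
            have h7 : 0 < gN (u * ρ) := gN_pos hπ.ne_zero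
            rcases Nat.lt_or_ge 1 (gN (u * ρ)) with h8 | h8
            · exact h8
            · exfalso
              have h9 : gN (u * ρ) = 1 := by omega
              apply hπ.not_isUnit
              exact Zsqrtd.norm_eq_one_iff.mp h9
          nlinarith
        rw [hc']
        exact hmul _ _ hπ hP hPc (ih _ hlt _ rfl hPc)
  exact key _ β rfl hβ

variable {D : LemData}

/-- **All primary elements prime to `n` act.** -/
theorem exists_act {n : ℕ} (hn : n ≠ 0) (E : IntermediateField QI ℂ) [NumberField E]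
    [IsGalois QI E] {β : GaussianInt} (hβ : Prim β) (hβn : IsCoprime β (n : GaussianInt)) :
    ∃ σ : E ≃ₐ[QI] E, Act D n β σ := by
  have key := prim_induction (p := fun β => IsCoprime β (n : GaussianInt) →
    ∃ σ : E ≃ₐ[QI] E, Act D n β σ) (fun _ => ⟨1, Act.one⟩) (by
      intro π β hπ hP _ ih hco
      obtain ⟨τ, hτ⟩ := ih (IsCoprime.of_mul_left_right hco)
      obtain ⟨P, V, σ, hV, hσ, hπV, hN⟩ := exists_frob_data E hπ
      have hπn : ¬ π ∣ (n : GaussianInt) :=
        (Irreducible.coprime_iff_not_dvd hπ.irreducible).1 (IsCoprime.of_mul_left_left hco)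
      exact ⟨σ * τ, Act.mul (IsCoprime.of_mul_left_right hco)
        (frob_act hn hV hσ hπ hP hπn hπV hN) hτ⟩)
  exact key β hβ hβn

/-- congruent elements have congruent norms -/
lemma gN_congr {n : ℕ} {a b : GaussianInt} (h : (n : GaussianInt) ∣ a - b) :
    gN a ≡ gN b [MOD n] := by
  obtain ⟨c, hc⟩ := h
  have hr := congrArg Zsqrtd.re hc
  have hi := congrArg Zsqrtd.im hc
  simp only [Zsqrtd.re_sub, Zsqrtd.im_sub, Zsqrtd.re_mul, Zsqrtd.im_mul, Zsqrtd.re_natCast,
    Zsqrtd.im_natCast] at hr hi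
  rw [← Int.natCast_modEq_iff, Q_gN, Q_gN]
  refine (Int.modEq_iff_dvd.2 ?_)
  refine ⟨-(c.re * (a.re + b.re) + c.im * (a.im + b.im)), ?_⟩
  have h1 : a.re = b.re + n * c.re := by linarith
  have h2 : a.im = b.im + n * c.im := by linarith
  rw [h1, h2]
  ring

/-- the field generated by the values of `X` and the roots of unity -/
noncomputable def Fn (D : LemData) (n : ℕ) : IntermediateField QI ℂ :=
  IntermediateField.adjoin QI (TSet D.X (n : GaussianInt) ∪ {zn n})

lemma X_mem_Fn {n : ℕ} {w : ℂ} (hw : w ∉ Lam) (hnw : (n : ℂ) * w ∈ Lam) : D.X w ∈ Fn D n := by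
  apply IntermediateField.subset_adjoin
  left
  exact ⟨w, hw, by rw [map_natCast]; exact hnw, rfl⟩

lemma zn_mem_Fn (n : ℕ) : zn n ∈ Fn D n := by
  apply IntermediateField.subset_adjoin
  right
  rfl

/-- two homomorphisms acting as congruent elements agree on `Fn` -/
lemma act_unique {n : ℕ} (hn : n ≠ 0) {β β' : GaussianInt} (hββ : (n : GaussianInt) ∣ β - β')
    {h h' : Qb →+* ℂ} (hI : ap h I = I) (hI' : ap h' I = I)
    (hX : ∀ w : ℂ, w ∉ Lam → (n : ℂ) * w ∈ Lam → ap h (D.X w) = D.X (β * w))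
    (hX' : ∀ w : ℂ, w ∉ Lam → (n : ℂ) * w ∈ Lam → ap h' (D.X w) = D.X (β' * w))
    (hz : ap h (zn n) = zn n ^ gN β) (hz' : ap h' (zn n) = zn n ^ gN β')
    {x : ℂ} (hx : x ∈ Fn D n) : x ∈ Qb ∧ ap h x = ap h' x := by
  have hn' : ((n : GaussianInt)) ≠ 0 := Nat.cast_ne_zero.2 hn
  have hznQ : zn n ∈ Qb := by
    have h1 : IsIntegral ℚ (zn n) := by
      apply IsIntegral.of_pow (n := n) (Nat.pos_of_ne_zero hn)
      rw [(zn_prim hn).pow_eq_one]
      exact isIntegral_one
    exact mem_algebraicClosure_iff.2 h1.isAlgebraic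
  unfold Fn at hx
  induction hx using IntermediateField.adjoin_induction with
  | mem x hx =>
    rcases hx with hx | hx
    · refine ⟨(D.stable hn' hx).1, ?_⟩
      obtain ⟨u, hu, hnu, rfl⟩ := hx
      rw [map_natCast] at hnu
      rw [hX u hu hnu, hX' u hu hnu]
      obtain ⟨c, hc⟩ := hββ
      obtain ⟨a, ha⟩ := Lam_mul c hnu
      have ha' : (a : ℂ) = (c : ℂ) * ((n : ℂ) * u) := ha
      have hc' : (β : ℂ) - (β' : ℂ) = (n : ℂ) * (c : ℂ) := by
        have := congrArg GaussianInt.toComplex hc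
        rwa [map_sub, map_mul, map_natCast] at this
      have e : (β : ℂ) * u = (β' : ℂ) * u + (a : ℂ) := by
        rw [ha']
        linear_combination u * hc'
      rw [e, D.X_add]
    · rw [Set.mem_singleton_iff] at hx
      subst hx
      refine ⟨hznQ, ?_⟩
      rw [hz, hz']
      have h1 := gN_congr hββ
      exact pow_eq_pow_of_modEq h1 (zn_prim hn).pow_eq_one
  | algebraMap x =>
    refine ⟨D3a_le x.2, ?_⟩
    have e : (algebraMap QI ℂ) x = (x : ℂ) := rfl
    rw [e, ap_QI h hI x.2, ap_QI h' hI' x.2]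
  | add x y _ _ hx hy =>
    refine ⟨add_mem hx.1 hy.1, ?_⟩
    rw [ap_add h hx.1 hy.1, ap_add h' hx.1 hy.1, hx.2, hy.2]
  | inv x _ hx =>
    refine ⟨inv_mem hx.1, ?_⟩
    rw [ap_inv h hx.1, ap_inv h' hx.1, hx.2]
  | mul x y _ _ hx hy =>
    refine ⟨mul_mem hx.1 hy.1, ?_⟩
    rw [ap_mul h hx.1 hy.1, ap_mul h' hx.1 hy.1, hx.2, hy.2]

/-- **All automorphisms act as primary elements prime to `n`.** -/
theorem act_all {n : ℕ} (hn : n ≠ 0) {E : IntermediateField QI ℂ} [NumberField E]
    [IsGalois QI E] (σ : E ≃ₐ[QI] E) :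
    ∃ β : GaussianInt, Prim β ∧ IsCoprime β (n : GaussianInt) ∧ Act D n β σ := by
  have hfin : Finite (E ≃ₐ[QI] E) := inferInstance
  have hmul : ∀ a b : E ≃ₐ[QI] E,
      (∃ β : GaussianInt, Prim β ∧ IsCoprime β (n : GaussianInt) ∧ Act D n β a) →
      (∃ β : GaussianInt, Prim β ∧ IsCoprime β (n : GaussianInt) ∧ Act D n β b) →
      ∃ β : GaussianInt, Prim β ∧ IsCoprime β (n : GaussianInt) ∧ Act D n β (a * b) := by
    rintro a b ⟨β, h1, h2, h3⟩ ⟨β', h4, h5, h6⟩
    exact ⟨β * β', h1.mul h4, h2.mul_left h5, h3.mul h5 h6⟩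
  have hone : ∃ β : GaussianInt, Prim β ∧ IsCoprime β (n : GaussianInt) ∧
      Act D n β (1 : E ≃ₐ[QI] E) := ⟨1, prim_one, isCoprime_one_left, Act.one⟩
  have hpow : ∀ a : E ≃ₐ[QI] E,
      (∃ β : GaussianInt, Prim β ∧ IsCoprime β (n : GaussianInt) ∧ Act D n β a) → ∀ k : ℕ,
      ∃ β : GaussianInt, Prim β ∧ IsCoprime β (n : GaussianInt) ∧ Act D n β (a ^ k) := by
    intro a ha k
    induction k with
    | zero =>
      rw [pow_zero]
      exact hone
    | succ k ih =>
      rw [pow_succ]
      exact hmul _ _ ih ha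
  let T : Subgroup (E ≃ₐ[QI] E) :=
    { carrier := {τ | ∃ β : GaussianInt, Prim β ∧ IsCoprime β (n : GaussianInt) ∧ Act D n β τ}
      mul_mem' := fun {a b} ha hb => hmul a b ha hb
      one_mem' := hone
      inv_mem' := by
        intro a ha
        have h1 : a⁻¹ = a ^ (orderOf a - 1) := by
          apply inv_eq_of_mul_eq_one_left
          rw [← pow_succ, Nat.sub_add_cancel (orderOf_pos a), pow_orderOf_eq_one]
        change ∃ β : GaussianInt, Prim β ∧ IsCoprime β (n : GaussianInt) ∧ Act D n β a⁻¹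
        rw [h1]
        exact hpow a ha _ }
  have hnE : ((2 * n : ℕ) : E) ≠ 0 := Nat.cast_ne_zero.2 (mul_ne_zero two_ne_zero hn)
  have hT : T = ⊤ := by
    apply frob_gen' T ((und QI) '' {P : PrI E | ¬ ∀ V, OverP P V →
      V.valuation (algebraMap E ℂ ((2 * n : ℕ) : E)) = 1}) ((finite_bad hnE).image _)
    intro P hP τ hτ
    have hgood : ∀ V, OverP P V → V.valuation (algebraMap E ℂ ((2 * n : ℕ) : E)) = 1 := by
      by_contra hcon
      exact hP ⟨P, hcon, rfl⟩
    obtain ⟨V, hV⟩ := exists_overP P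
    have hVn := hgood V hV
    rw [map_natCast] at hVn
    obtain ⟨π, hπ, hpn, hdvd⟩ := exists_prime_pn (und QI P)
    have hval : ∀ a : GaussianInt, V.valuation (a : ℂ) < 1 ↔ π ∣ a := fun a =>
      (hV.gauss a).trans (hdvd a)
    have h2n : ¬ π ∣ ((2 * n : ℕ) : GaussianInt) := by
      intro h
      have h1 := (hval _).2 h
      rw [map_natCast, hVn] at h1
      exact lt_irrefl _ h1
    have h2 : ¬ π ∣ 2 := by
      intro h
      apply h2n
      rw [Nat.cast_mul, Nat.cast_ofNat]
      exact Dvd.dvd.mul_right h _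
    have hnn : ¬ π ∣ (n : GaussianInt) := by
      intro h
      apply h2n
      rw [Nat.cast_mul]
      exact Dvd.dvd.mul_left h _
    obtain ⟨u, hu, hPr⟩ := exists_prim_assoc (D8_odd hπ h2)
    have hass : Associated π (u * π) := associated_unit_mul_right π u hu
    have hβ : Prime (u * π) := hass.prime_iff.1 hπ
    have hβV : V.valuation ((u * π : GaussianInt) : ℂ) < 1 := (hval _).2 (Dvd.intro_left u rfl)
    have hN : pn (und QI P) = gN (u * π) := by
      rw [hpn]
      exact gN_eq_of_associated hass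
    have hβn : ¬ (u * π) ∣ (n : GaussianInt) := fun h => hnn (hass.dvd.trans h)
    exact ⟨u * π, hPr, (Irreducible.coprime_iff_not_dvd hβ.irreducible).2 hβn,
      frob_act hn hV hτ hβ hPr hβn hβV hN⟩
  have h1 : σ ∈ T := by
    rw [hT]
    exact Subgroup.mem_top σ
  exact h1

end Pool.Agent.STh
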