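import Pool.Agent.Lib.MP_1ef7cf_nt_g.Mg.G036
import Pool.Agent.Lib.MP_1ef7cf_nt_h.B4

/-!
# The quartic residue symbol of `d`
-/

open NumberField IsDedekindDomain Pool.Agent.ST Complex Pool.Agent.STg

namespace Pool.Agent.STh

/-- `κ` is the quartic residue symbol of `d` for primary elements prime to `n`. -/
structure IsKap (d n : ℕ) (κ : GaussianInt → GaussianInt) : Prop where
  unit : ∀ a, κ a ^ 4 = 1
  mul : ∀ a b, Prim a → Prim b → IsCoprime a (n : GaussianInt) → IsCoprime b (n : GaussianInt) →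
    κ (a * b) = κ a * κ b
  per : ∀ a b, Prim a → Prim b → IsCoprime a (n : GaussianInt) → (n : GaussianInt) ∣ a - b → κ a = κ b
  leg : ∀ p : GaussianInt, Prime p → Prim p → ¬ p ∣ (n : GaussianInt) →
    p ∣ (d : GaussianInt) ^ ((gN p - 1) / 4) - κ p

lemma zn_mem_Qb {n : ℕ} (hn : n ≠ 0) : zn n ∈ Qb := by
  have h1 : IsIntegral ℚ (zn n) := by
    apply IsIntegral.of_pow (n := n) (Nat.pos_of_ne_zero hn)
    rw [(zn_prim hn).pow_eq_one]
    exact isIntegral_one
  exact mem_algebraicClosure_iff.2 h1.isAlgebraic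

lemma root_mem_Qb {d : ℕ} {r : ℂ} (hr : r ^ 4 = d) : r ∈ Qb := by
  have h1 : IsIntegral ℚ r := by
    apply IsIntegral.of_pow (n := 4) (by norm_num)
    rw [hr]
    exact isIntegral_algebraMap (R := ℚ) (x := (d : ℚ)) |> fun h => by simpa using h
  exact mem_algebraicClosure_iff.2 h1.isAlgebraic

/-- fourth roots of unity -/
lemma exists_unit {x r : ℂ} (h : x ^ 4 = r ^ 4) :
    ∃ u : GaussianInt, u ^ 4 = 1 ∧ x = (u : ℂ) * r := by
  have hI : I ^ 2 = -1 := I_sq
  have h1 : (x - r) * ((x + r) * ((x - I * r) * (x + I * r))) = 0 := by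
    have e : (x - r) * ((x + r) * ((x - I * r) * (x + I * r))) =
        (x ^ 2 - r ^ 2) * (x ^ 2 - I ^ 2 * r ^ 2) := by ring
    rw [e, hI]
    linear_combination h
  have hIc : ((⟨0, 1⟩ : GaussianInt) : ℂ) = I := by
    rw [GaussianInt.toComplex_def']
    simp
  rcases mul_eq_zero.1 h1 with h2 | h2
  · refine ⟨1, by norm_num, ?_⟩
    rw [map_one, one_mul]
    exact sub_eq_zero.1 h2
  rcases mul_eq_zero.1 h2 with h3 | h3
  · refine ⟨-1, by norm_num, ?_⟩
    rw [map_neg, map_one, neg_one_mul]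
    exact eq_neg_of_add_eq_zero_left h3
  rcases mul_eq_zero.1 h3 with h4 | h4
  · refine ⟨⟨0, 1⟩, by decide, ?_⟩
    rw [hIc]
    exact sub_eq_zero.1 h4
  · refine ⟨-⟨0, 1⟩, by decide, ?_⟩
    rw [map_neg, hIc, neg_mul]
    exact eq_neg_of_add_eq_zero_left h4

/-- two units of `ℤ[i]` which are congruent modulo a valuation with `v 2 = 1` are equal -/
lemma unit_val {V : ValuationSubring ℂ} (h2 : V.valuation (2 : ℂ) = 1) {u v : GaussianInt}
    (hu : u ^ 4 = 1) (hv : v ^ 4 = 1) (h : V.valuation ((u : ℂ) - (v : ℂ)) < 1) : u = v := by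
  have hv0 : (v : ℂ) ≠ 0 := by
    intro h0
    have h1 : (v : ℂ) ^ 4 = 1 := by
      have := congrArg GaussianInt.toComplex hv
      rwa [map_pow, map_one] at this
    rw [h0] at h1
    norm_num at h1
  have hu' : (u : ℂ) ^ 4 = 1 := by
    have := congrArg GaussianInt.toComplex hu
    rwa [map_pow, map_one] at this
  have hv' : (v : ℂ) ^ 4 = 1 := by
    have := congrArg GaussianInt.toComplex hv
    rwa [map_pow, map_one] at this
  have hvv : V.valuation (v : ℂ) = 1 := by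
    have h1 : V.valuation (v : ℂ) ^ 4 = 1 := by
      rw [← map_pow, hv', map_one]
    exact (pow_eq_one_iff_of_nonneg zero_le (by norm_num)).1 h1
  have h3 : (u : ℂ) / (v : ℂ) = 1 := by
    apply root_val (n := 4) (by norm_num) (V := V)
    · have e : ((4 : ℕ) : ℂ) = 2 * 2 := by norm_num
      rw [e, map_mul, h2, one_mul]
    · rw [div_pow, hu', hv', div_one]
    · have e : (u : ℂ) / (v : ℂ) - 1 = ((u : ℂ) - (v : ℂ)) / (v : ℂ) := by
        rw [sub_div, div_self hv0]
      rw [e, map_div₀, hvv, div_one]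
      exact h
  exact GaussianInt.toComplex_injective ((div_eq_one_iff_eq hv0).1 h3)

/-- **The quartic residue symbol of `d` is periodic**, and it describes the action of the automorphisms
on the fourth roots of `d`. -/
theorem exists_kappa (D : LemData) {d n : ℕ} (hd : d ≠ 0) (hn : 64 * d ∣ n) (hn0 : n ≠ 0) {r : ℂ}
    (hr : r ^ 4 = d) : ∃ κ : GaussianInt → GaussianInt, IsKap d n κ ∧
      ∀ h : Qb →+* ℂ, ap h I = I → (∃ β : GaussianInt, Prim β ∧ IsCoprime β (n : GaussianInt) ∧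
        (∀ w : ℂ, w ∉ Lam → (n : ℂ) * w ∈ Lam → ap h (D.X w) = D.X (β * w)) ∧
        ap h (zn n) = zn n ^ gN β) ∧
      ∀ β : GaussianInt, Prim β → IsCoprime β (n : GaussianInt) →
        (∀ w : ℂ, w ∉ Lam → (n : ℂ) * w ∈ Lam → ap h (D.X w) = D.X (β * w)) →
        ap h (zn n) = zn n ^ gN β → ap h r = (κ β : ℂ) * r := by
  classical
  have hn' : ((n : GaussianInt)) ≠ 0 := Nat.cast_ne_zero.2 hn0
  have hdC : (d : ℂ) ≠ 0 := Nat.cast_ne_zero.2 hd
  have hr0 : r ≠ 0 := by
    rintro rfl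
    apply hdC
    rw [← hr]
    norm_num
  -- the field
  obtain ⟨E, hfd, hgal, hSE⟩ := exists_gal (TSet D.X (n : GaussianInt) ∪ {zn n, r})
    ((D.finite_T _ hn').union (Set.toFinite _)) (by
      intro x hx
      rcases hx with hx | hx
      · exact (D.stable hn' hx).1
      · rcases hx with hx | hx
        · rw [hx]
          exact zn_mem_Qb hn0
        · rw [Set.mem_singleton_iff.1 hx]
          exact root_mem_Qb hr)
  have hnf : NumberField E := numberField_E E
  have hXE : ∀ w : ℂ, w ∉ Lam → (n : ℂ) * w ∈ Lam → D.X w ∈ E := by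
    intro w hw hnw
    exact hSE (Or.inl ⟨w, hw, by rw [map_natCast]; exact hnw, rfl⟩)
  have hzE : zn n ∈ E := hSE (Or.inr (Or.inl rfl))
  have hrE : r ∈ E := hSE (Or.inr (Or.inr rfl))
  have hrF : r ∈ Fn D n :=
    fourth_mem hd hn hn0 (fun w hw hnw => X_mem_Fn hw hnw) (zn_mem_Fn n) hr
  -- extension of `σ`
  have hact : ∀ (σ : E ≃ₐ[QI] E) (β : GaussianInt), Act D n β σ → ∃ h : Qb →+* ℂ, ap h I = I ∧
      (∀ w : ℂ, w ∉ Lam → (n : ℂ) * w ∈ Lam → ap h (D.X w) = D.X (β * w)) ∧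
      ap h (zn n) = zn n ^ gN β ∧ ap h r = ((σ ⟨r, hrE⟩ : E) : ℂ) := by
    intro σ β hσ
    obtain ⟨h, hI, hh⟩ := exists_ext σ
    refine ⟨h, hI, ?_, ?_, ?_⟩
    · intro w hw hnw
      rw [← hσ.X w hw hnw ⟨D.X w, hXE w hw hnw⟩ rfl]
      exact hh ⟨D.X w, hXE w hw hnw⟩
    · rw [← hσ.z ⟨zn n, hzE⟩ rfl]
      exact hh ⟨zn n, hzE⟩
    · exact hh ⟨r, hrE⟩
  -- uniqueness
  have huniq : ∀ (β β' : GaussianInt) (σ τ : E ≃ₐ[QI] E), (n : GaussianInt) ∣ β - β' →
      Act D n β σ → Act D n β' τ → σ ⟨r, hrE⟩ = τ ⟨r, hrE⟩ := by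
    intro β β' σ τ hββ hσ hτ
    obtain ⟨h, hI, hX, hz, hh⟩ := hact σ β hσ
    obtain ⟨h', hI', hX', hz', hh'⟩ := hact τ β' hτ
    apply Subtype.ext
    rw [← hh, ← hh']
    exact (act_unique hn0 hββ hI hI' hX hX' hz hz' hrF).2
  have hpow : ∀ σ : E ≃ₐ[QI] E, ((σ ⟨r, hrE⟩ : E) : ℂ) ^ 4 = r ^ 4 := by
    intro σ
    have h1 : (⟨r, hrE⟩ : E) ^ 4 = ((d : ℕ) : E) := by
      apply Subtype.ext
      change r ^ 4 = ((((d : ℕ) : E)) : ℂ)
      rw [hr]
      rfl
    have h2 : (σ ⟨r, hrE⟩) ^ 4 = (⟨r, hrE⟩ : E) ^ 4 := by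
      rw [← map_pow, h1, map_natCast]
    exact congrArg (fun y : E => (y : ℂ)) h2
  -- the definition of `κ`
  have hex : ∀ β : GaussianInt, ∃ u : GaussianInt, u ^ 4 = 1 ∧
      (Prim β → IsCoprime β (n : GaussianInt) → ∀ σ : E ≃ₐ[QI] E, Act D n β σ →
        ((σ ⟨r, hrE⟩ : E) : ℂ) = (u : ℂ) * r) := by
    intro β
    by_cases hβ : Prim β ∧ IsCoprime β (n : GaussianInt)
    · obtain ⟨σ, hσ⟩ := exists_act (D := D) hn0 E hβ.1 hβ.2
      obtain ⟨u, hu, hu2⟩ := exists_unit (hpow σ)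
      refine ⟨u, hu, fun _ _ τ hτ => ?_⟩
      rw [← hu2, huniq β β τ σ (by rw [sub_self]; exact dvd_zero _) hτ hσ]
    · exact ⟨1, by norm_num, fun h1 h2 => absurd ⟨h1, h2⟩ hβ⟩
  choose κ hκ hκ2 using hex
  have hinj : ∀ u v : GaussianInt, (u : ℂ) * r = (v : ℂ) * r → u = v := by
    intro u v huv
    exact GaussianInt.toComplex_injective (mul_right_cancel₀ hr0 huv)
  refine ⟨κ, ⟨hκ, ?_, ?_, ?_⟩, ?_⟩
  · -- multiplicativity
    intro a b ha hb han hbn
    obtain ⟨σ, hσ⟩ := exists_act (D := D) hn0 E ha han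
    obtain ⟨τ, hτ⟩ := exists_act (D := D) hn0 E hb hbn
    apply hinj
    rw [← hκ2 (a * b) (ha.mul hb) (han.mul_left hbn) (σ * τ) (hσ.mul hbn hτ), AlgEquiv.mul_apply]
    have h1 : τ ⟨r, hrE⟩ = (algebraMap QI E ⟨(κ b : ℂ), gauss_mem_QI _⟩) * ⟨r, hrE⟩ := by
      apply Subtype.ext
      exact hκ2 b hb hbn τ hτ
    rw [h1, map_mul, σ.commutes]
    change (κ b : ℂ) * ((σ ⟨r, hrE⟩ : E) : ℂ) = _
    rw [hκ2 a ha han σ hσ, map_mul]
    ring
  · -- periodicity
    intro a b ha hb han hab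
    have hbn : IsCoprime b (n : GaussianInt) := by
      obtain ⟨c, hc⟩ := hab
      have e : b = a + (n : GaussianInt) * (-c) := by linear_combination -hc
      rw [e]
      exact han.add_mul_left_left _
    obtain ⟨σ, hσ⟩ := exists_act (D := D) hn0 E ha han
    obtain ⟨τ, hτ⟩ := exists_act (D := D) hn0 E hb hbn
    apply hinj
    rw [← hκ2 a ha han σ hσ, ← hκ2 b hb hbn τ hτ, huniq a b σ τ hab hσ hτ]
  · -- the residue symbol
    intro p hp hP hpn
    obtain ⟨P, V, σ, hV, hσ, hpV, hN⟩ := exists_frob_data E hp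
    have hact := frob_act (D := D) hn0 hV hσ hp hP hpn hpV hN
    have hpco : IsCoprime p (n : GaussianInt) :=
      (Irreducible.coprime_iff_not_dvd hp.irreducible).2 hpn
    have h1 := hκ2 p hP hpco σ hact
    have hdn : ¬ p ∣ (d : GaussianInt) := by
      intro h
      apply hpn
      refine h.trans ?_
      obtain ⟨c, hc⟩ := hn
      refine ⟨64 * c, ?_⟩
      rw [hc]
      push_cast
      ring
    have hvd : V.valuation (d : ℂ) = 1 := by
      have := val_gauss_eq V hp hpV hdn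
      rwa [map_natCast] at this
    have hvr : V.valuation r = 1 := by
      have h2 : V.valuation r ^ 4 = 1 := by
        rw [← map_pow, hr, hvd]
      exact (pow_eq_one_iff_of_nonneg zero_le (by norm_num)).1 h2
    have hle : V.valuation (algebraMap E ℂ ⟨r, hrE⟩) ≤ 1 := by
      change V.valuation r ≤ 1
      rw [hvr]
    have h2 := hV.frob hσ hle
    rw [hN] at h2
    have e1 : algebraMap E ℂ (σ ⟨r, hrE⟩) = ((σ ⟨r, hrE⟩ : E) : ℂ) := rfl
    have e2 : algebraMap E ℂ ⟨r, hrE⟩ = r := rfl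
    rw [e1, e2, h1] at h2
    have h4 : r ^ gN p = (d : ℂ) ^ ((gN p - 1) / 4) * r := by
      have h5 := hP.gN_mod
      have h6 : gN p = 4 * ((gN p - 1) / 4) + 1 := by omega
      calc r ^ gN p = r ^ (4 * ((gN p - 1) / 4) + 1) := by rw [← h6]
        _ = (r ^ 4) ^ ((gN p - 1) / 4) * r := by rw [pow_succ, pow_mul]
        _ = _ := by rw [hr]
    have h5 : (κ p : ℂ) * r - r ^ gN p =
        (((κ p - (d : GaussianInt) ^ ((gN p - 1) / 4) : GaussianInt)) : ℂ) * r := by
      rw [h4, map_sub, map_pow, map_natCast]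
      ring
    rw [h5, map_mul, hvr, mul_one, val_gauss_lt V hp hpV] at h2
    rw [← dvd_neg, neg_sub]
    exact h2
  · -- the automorphisms
    intro h hI
    -- `E ⊆ Qb`
    have hEQ : ∀ x : E, (x : ℂ) ∈ Qb := by
      intro x
      have h1 : IsIntegral QI (x : ℂ) := by
        have h2 : IsIntegral QI x := Algebra.IsIntegral.isIntegral x
        exact h2.map E.val
      have halg : Algebra.IsIntegral ℚ QI := inferInstance
      have h3 : IsIntegral ℚ (x : ℂ) := isIntegral_trans (x : ℂ) h1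
      exact mem_algebraicClosure_iff.2 h3.isAlgebraic
    let φ : E →ₐ[QI] ℂ :=
      { toFun := fun x => h ⟨x, hEQ x⟩
        map_one' := map_one h
        map_mul' := fun x y => map_mul h ⟨x, hEQ x⟩ ⟨y, hEQ y⟩
        map_zero' := map_zero h
        map_add' := fun x y => map_add h ⟨x, hEQ x⟩ ⟨y, hEQ y⟩
        commutes' := by
          intro r
          have h1 := ap_QI h hI r.2
          have h2 : (r : ℂ) ∈ Qb := hEQ (algebraMap QI E r)
          rw [ap_of_mem h h2] at h1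
          exact h1 }
    have hφ : ∀ x : E, φ x = ap h (x : ℂ) := fun x => (ap_of_mem h (hEQ x)).symm
    have hmem : ∀ x : E, φ x ∈ E.toSubalgebra := by
      intro x
      have h1 : φ.fieldRange = E := AlgHom.fieldRange_of_normal φ
      have h2 : φ x ∈ φ.fieldRange := ⟨x, rfl⟩
      rw [h1] at h2
      exact h2
    let ψ : E →ₐ[QI] E := AlgHom.codRestrict φ E.toSubalgebra hmem
    have hbij : Function.Bijective ψ := Algebra.IsAlgebraic.algHom_bijective ψ
    let σ : E ≃ₐ[QI] E := AlgEquiv.ofBijective ψ hbij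
    have hσ : ∀ x : E, ((σ x : E) : ℂ) = ap h (x : ℂ) := fun x => hφ x
    constructor
    · obtain ⟨β, hP, hβf, hact⟩ := act_all (D := D) hn0 σ
      refine ⟨β, hP, hβf, ?_, ?_⟩
      · intro w hw hnw
        have h1 := hact.X w hw hnw ⟨D.X w, hXE w hw hnw⟩ rfl
        rw [hσ] at h1
        exact h1
      · have h1 := hact.z ⟨zn n, hzE⟩ rfl
        rw [hσ] at h1
        exact h1
    · intro β hP hβn hX hz
      have hact : Act D n β σ := by
        refine ⟨?_, ?_⟩
        · intro w hw hnw x hx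
          rw [hσ, hx]
          exact hX w hw hnw
        · intro x hx
          rw [hσ, hx]
          exact hz
      have h1 := hκ2 β hP hβn σ hact
      rw [hσ] at h1
      exact h1

end Pool.Agent.STh
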