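import Pool.Agent.Lib.MP_1ef7cf_nt_h.Q1
import Pool.Agent.Lib.MP_1ef7cf_nt_h.B5

/-!
# The action of the automorphisms fixing `i`
-/

open NumberField IsDedekindDomain Pool.Agent.ST Complex

namespace Pool.Agent.STh

open Pool.Agent.STg

lemma zq_pow {Q : ℕ} (hQ : Q ≠ 0) : zq Q ^ Q = 1 := (zn_prim hQ).pow_eq_one

/-- `r ^ 4 = d` -/
lemma UD.r_pow (U : UD) : (U.r : ℂ) ^ 4 = (U.d : ℂ) := by
  have h1 : U.r ^ 4 = (U.d : ℝ) := by
    have h2 : U.r ^ 2 = U.e := Real.sq_sqrt (Real.sqrt_nonneg _)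
    have h3 : U.e ^ 2 = U.d := Real.sq_sqrt (Nat.cast_nonneg _)
    rw [show U.r ^ 4 = (U.r ^ 2) ^ 2 by ring, h2, h3]
  have h2 := congrArg (fun x : ℝ => (x : ℂ)) h1
  simpa using h2

lemma UD.r_mem_Qb (U : UD) : (U.r : ℂ) ∈ Qb := root_mem_Qb U.r_pow

lemma zq_mem_Qb {Q : ℕ} (hQ : Q ≠ 0) : zq Q ∈ Qb := zn_mem_Qb hQ

lemma UD.dvd_of {U : UD} {Q : ℕ} (hn : U.n ∣ Q) : 64 * U.d ∣ Q := U.dvd.trans hn

/-- the two symbols agree on primary elements -/
lemma UD.kap_eq (U : UD) {Q : ℕ} (hn : U.n ∣ Q) {κ : GaussianInt → GaussianInt}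
    (hκ : IsKap U.d Q κ) (β : GaussianInt) (hβ : Prim β)
    (hβQ : IsCoprime β ((Q : ℕ) : GaussianInt)) :
    κ β = ((U.κ β : GaussianIntˣ) : GaussianInt) := by
  revert hβQ
  refine prim_induction (p := fun β => IsCoprime β ((Q : ℕ) : GaussianInt) →
    κ β = ((U.κ β : GaussianIntˣ) : GaussianInt)) ?_ ?_ β hβ
  · intro _
    rw [U.κ_one, Units.val_one]
    have hp1 : Prim 1 := by
      change (⟨1, 1⟩ : GaussianInt) ^ 3 ∣ 1 - 1
      rw [sub_self]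
      exact dvd_zero _
    have h1 := hκ.mul 1 1 hp1 hp1 isCoprime_one_left isCoprime_one_left
    have h2 : κ 1 ≠ 0 := by
      intro h
      have := hκ.unit 1
      rw [h] at this
      norm_num at this
    rw [one_mul] at h1
    exact (mul_eq_left₀ h2).1 h1.symm
  · intro π γ hπ hP hγ ih hc
    have hc1 : IsCoprime π ((Q : ℕ) : GaussianInt) := hc.of_mul_left_left
    have hc2 : IsCoprime γ ((Q : ℕ) : GaussianInt) := hc.of_mul_left_right
    have hnd : ¬ π ∣ ((Q : ℕ) : GaussianInt) := by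
      intro h
      exact hπ.not_isUnit (hc1.isUnit_of_dvd' (dvd_refl _) h)
    have hdn : ¬ π ∣ ((U.d : ℕ) : GaussianInt) := by
      intro h
      apply hnd
      refine h.trans ?_
      obtain ⟨c, hc⟩ := UD.dvd_of hn
      refine ⟨64 * c, ?_⟩
      rw [hc]
      push_cast
      ring
    have hn0 : IsCoprime π ((U.n : ℕ) : GaussianInt) := by
      obtain ⟨c, hc⟩ := hn
      rw [hc, Nat.cast_mul] at hc1
      exact hc1.of_mul_right_left
    have hn1 : IsCoprime γ ((U.n : ℕ) : GaussianInt) := by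
      obtain ⟨c, hc⟩ := hn
      rw [hc, Nat.cast_mul] at hc2
      exact hc2.of_mul_right_left
    have ho : gOdd π := U.gOdd_of hn0
    rw [hκ.mul π γ hP hγ hc1 hc2, ih hc2, U.mul π γ hπ.ne_zero (U.ne_zero_of hn1), Units.val_mul]
    congr 1
    have h1 := hκ.leg π hπ hP hnd
    have h2 := U.leg π hπ ho hdn
    have h3 : π ∣ κ π - ((U.κ π : GaussianIntˣ) : GaussianInt) := by
      have := dvd_sub h2 h1
      rwa [show (U.d : GaussianInt) ^ ((gN π - 1) / 4) - ((U.κ π : GaussianIntˣ) : GaussianInt) -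
        ((U.d : GaussianInt) ^ ((gN π - 1) / 4) - κ π) =
        κ π - ((U.κ π : GaussianIntˣ) : GaussianInt) by ring] at this
    have hgal : IsGalois QI (⊥ : IntermediateField QI ℂ) := inferInstance
    have hfd : FiniteDimensional QI (⊥ : IntermediateField QI ℂ) := inferInstance
    have hnf : NumberField (⊥ : IntermediateField QI ℂ) := numberField_E _
    obtain ⟨-, V, -, -, -, hV, -⟩ := exists_frob_data (⊥ : IntermediateField QI ℂ) hπ
    refine unit_val (V := V) (val_two V hπ ho hV) (hκ.unit π) ?_ ?_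
    · have := unit_pow_four (U.κ π)
      rw [← Units.val_pow_eq_pow_val, this, Units.val_one]
    · rw [← map_sub]
      exact (val_gauss_lt V hπ hV _).2 h3

variable {U : UD} {Q : ℕ}

/-- **The action of the automorphisms of the algebraic numbers fixing `i`.** -/
theorem D_main (U : UD) {Q : ℕ} (hQ : Q ≠ 0) (hn : U.n ∣ Q) (h : Qb →+* ℂ) (hI : ap h I = I) :
    ∃ β : GaussianInt, Prim β ∧ IsCoprime β ((Q : ℕ) : GaussianInt) ∧ Acts U Q β h := by
  obtain ⟨κ, hκ, hh⟩ := exists_kappa U.D U.d_ne_zero (UD.dvd_of hn) hQ U.r_pow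
  obtain ⟨⟨β, h1, h2, h3, h4⟩, h5⟩ := hh h hI
  refine ⟨β, h1, h2, hI, h3, h4, ?_⟩
  rw [h5 β h1 h2 h3 h4, U.kap_eq hn hκ β h1 h2]

/-- **All elements occur.** -/
theorem exists_h (U : UD) {Q : ℕ} (hQ : Q ≠ 0) (hn : U.n ∣ Q) {β : GaussianInt} (hβ : Prim β)
    (hβQ : IsCoprime β ((Q : ℕ) : GaussianInt)) : ∃ h : Qb →+* ℂ, Acts U Q β h := by
  obtain ⟨κ, hκ, hh⟩ := exists_kappa U.D U.d_ne_zero (UD.dvd_of hn) hQ U.r_pow
  have hn' : ((Q : ℕ) : GaussianInt) ≠ 0 := Nat.cast_ne_zero.2 hQ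
  obtain ⟨E, hfd, hgal, hSE⟩ := exists_gal (TSet U.D.X (Q : GaussianInt) ∪ {zn Q})
    ((U.D.finite_T _ hn').union (Set.toFinite _)) (by
      intro x hx
      rcases hx with hx | hx
      · exact (U.D.stable hn' hx).1
      · rw [Set.mem_singleton_iff.1 hx]
        exact zn_mem_Qb hQ)
  have hnf : NumberField E := numberField_E E
  have hXE : ∀ w : ℂ, w ∉ Lam → (Q : ℂ) * w ∈ Lam → U.D.X w ∈ E := by
    intro w hw hnw
    exact hSE (Or.inl ⟨w, hw, by rw [map_natCast]; exact hnw, rfl⟩)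
  have hzE : zn Q ∈ E := hSE (Or.inr rfl)
  obtain ⟨σ, hσ⟩ := exists_act (D := U.D) hQ E hβ hβQ
  obtain ⟨h, hI, hh'⟩ := exists_ext σ
  have hX : ∀ w : ℂ, w ∉ Lam → (Q : ℂ) * w ∈ Lam → ap h (U.D.X w) = U.D.X (β * w) := by
    intro w hw hnw
    rw [← hσ.X w hw hnw ⟨U.D.X w, hXE w hw hnw⟩ rfl]
    exact hh' ⟨U.D.X w, hXE w hw hnw⟩
  have hz : ap h (zn Q) = zn Q ^ gN β := by
    rw [← hσ.z ⟨zn Q, hzE⟩ rfl]
    exact hh' ⟨zn Q, hzE⟩
  refine ⟨h, hI, hX, hz, ?_⟩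
  rw [(hh h hI).2 β hβ hβQ hX hz, U.kap_eq hn hκ β hβ hβQ]

end Pool.Agent.STh
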