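import Pool.Agent.Lib.MP_1ef7cf_nt_h.Mg.G017

/-!
# Summary of the general result
-/

open NumberField IsDedekindDomain IntermediateField

namespace Pool.Agent.STh

open Pool.Agent.STh.F

variable {K : Type*} [Field K] [NumberField K] [Algebra K ℝ] {σ₂ : K →+* ℝ}

/-- the data from `√d ∈ K` -/
lemma fd_of_sqrt (hK : Module.finrank ℚ K = 2) (hσ : σ₂ ≠ algebraMap K ℝ) {d : ℕ}
    (hd : ¬ IsSquare d) {x : K} (hx : algebraMap K ℝ x = √(d : ℝ)) :
    ∃ a : 𝓞 K, (a : K) = x ∧ FD σ₂ d a := by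
  have hd0 : 0 < d := by
    rcases Nat.eq_zero_or_pos d with rfl | h
    · exact absurd ⟨0, rfl⟩ hd
    · exact h
  have hsq : x ^ 2 = (d : K) := by
    apply (algebraMap K ℝ).injective
    rw [map_pow, hx, map_natCast, Real.sq_sqrt (Nat.cast_nonneg _)]
  have hint : IsIntegral ℤ x := by
    refine IsIntegral.of_pow (n := 2) (by norm_num) ?_
    rw [hsq]
    exact isIntegral_algebraMap (R := ℤ) (x := (d : ℤ)) |> fun h => by simpa using h
  refine ⟨⟨x, hint⟩, rfl, hK, hσ, ?_, ?_, hd⟩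
  · apply RingOfIntegers.ext
    push_cast
    exact hsq
  · change 0 < algebraMap K ℝ x
    rw [hx]
    exact Real.sqrt_pos.2 (by exact_mod_cast hd0)

theorem fin_general (hK : Module.finrank ℚ K = 2) (hσ : σ₂ ≠ algebraMap K ℝ) {d n : ℕ}
    (hd : ¬ IsSquare d) (hn : n ≠ 0) {x : K} (hx : algebraMap K ℝ x = √(d : ℝ))
    {m : Ideal (𝓞 K)} (hm0 : m ≠ ⊥)
    (hm : ∀ v : HeightOneSpectrum (𝓞 K), (2 * d * n : 𝓞 K) ∈ v.asIdeal → v.asIdeal ∣ m)
    {H : IntermediateField K ℝ} {Art : ST.RayClassGroup σ₂ m ≃* (H ≃ₐ[K] H)}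
    (hA : ST.IsRayClassField σ₂ m H Art) {L : IntermediateField K ℝ} (hLH : L ≤ H)
    (hL : L ≤ K⟮√√(d : ℝ)⟯ ⊔ K⟮Real.cos (2 * Real.pi / n)⟯) : StarkRQ.StarkTateIn σ₂ m L := by
  obtain ⟨a, ha, D⟩ := fd_of_sqrt hK hσ hd hx
  refine stark_main D hn hm0 hm hA hLH ?_
  have h1 : se a = √√(d : ℝ) := by
    unfold se
    rw [ha, hx]
  rw [h1]
  exact hL

end Pool.Agent.STh
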