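import Pool.Agent.Lib.MP_1ef7cf_nt_h.Mg.G016
import Pool.Agent.Lib.MP_1ef7cf_nt_h.Defs

/-!
# Existence of the data
-/

namespace Pool.Agent.STh

open Pool.Agent.STg

theorem exists_ud {d n : ℕ} (hd : ¬ IsSquare d) (hn : n ≠ 0) (h : 64 * d ∣ n) :
    ∃ U : UD, U.d = d ∧ U.n = n := by
  obtain ⟨D, hD⟩ := exists_lem
  have hd0 : d ≠ 0 := by
    rintro rfl
    exact hd ⟨0, rfl⟩
  obtain ⟨κ, h1, h2, h3⟩ := exists_kap d hd0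
  exact ⟨⟨D, hD, d, n, κ, hd, hn, h, h1, h2, h3⟩, rfl, rfl⟩

end Pool.Agent.STh
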